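import Pool.Agent.W_4481e3_h10.Tab

/-!
Kill certificate for `L = 2`: data of a test with base `P / Q = 2 / 15 + s`.
-/

namespace Pool.Agent.W_4481e3_h10

open Pool.Agent.W_4481e3_q42
open Pool.Agent.W_4481e3_q12.Ev (ds ds_cast)

/-- the shift of the test with base `P / Q` -/
noncomputable def sv (P Q : ℕ) : ℝ := (P:ℝ) / Q - 2 / 15

lemma base_eq (P Q : ℕ) : (2:ℝ) ^ 1 / 15 + sv P Q = (P:ℝ) / Q := by unfold sv; ring

/-- `15 Q |s|` -/
def num (P Q : ℕ) : ℕ := ds (Nat.mul 15 P) (Nat.mul 2 Q)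

lemma num_cast {P Q : ℕ} (hQ : 0 < Q) : ((num P Q : ℕ) : ℝ) = 15 * Q * |sv P Q| := by
  unfold num
  rw [ds_cast]
  have hQr : (0:ℝ) < Q := by exact_mod_cast hQ
  have e : ((Nat.mul 15 P : ℕ) : ℝ) - ((Nat.mul 2 Q : ℕ) : ℝ) = 15 * Q * sv P Q := by
    unfold sv
    simp only [Nat.mul_eq]
    push_cast
    field_simp
  rw [e, abs_mul, abs_of_pos (by positivity)]

/-- window: `|s| ≤ 1 / t` -/
def winc (P Q t : ℕ) : Bool := Nat.ble (Nat.mul t (num P Q)) (Nat.mul 15 Q)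

lemma winc_sound {P Q t : ℕ} (hQ : 0 < Q) (ht : 0 < t) (h : winc P Q t = true) : |sv P Q| ≤ 1 / t := by
  unfold winc at h
  have h1 := Nat.le_of_ble_eq_true h
  simp only [Nat.mul_eq] at h1
  have h2 : ((t * num P Q : ℕ) : ℝ) ≤ ((15 * Q : ℕ) : ℝ) := by exact_mod_cast h1
  push_cast at h2
  rw [num_cast hQ] at h2
  have hQr : (0:ℝ) < Q := by exact_mod_cast hQ
  have htr : (0:ℝ) < t := by exact_mod_cast ht
  rw [le_div_iff₀ htr]
  have : 15 * (Q:ℝ) * (|sv P Q| * t) ≤ 15 * Q * 1 := by linarith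
  exact le_of_mul_le_mul_left this (by positivity)

/-- `|s| ≈ S / W` -/
def scalc (P Q W S : ℕ) : Bool := Nat.ble (ds (Nat.mul W (num P Q)) (Nat.mul (Nat.mul 15 Q) S)) (Nat.mul 15 Q)

lemma scalc_sound {P Q W S : ℕ} (hQ : 0 < Q) (h : scalc P Q W S = true) : |W * |sv P Q| - S| ≤ 1 := by
  unfold scalc at h
  have h1 := Nat.le_of_ble_eq_true h
  have h2 : ((ds (Nat.mul W (num P Q)) (Nat.mul (Nat.mul 15 Q) S) : ℕ) : ℝ) ≤ ((Nat.mul 15 Q : ℕ) : ℝ) := by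
    exact_mod_cast h1
  rw [ds_cast] at h2
  simp only [Nat.mul_eq] at h2
  push_cast at h2
  rw [num_cast hQ] at h2
  have hQr : (0:ℝ) < Q := by exact_mod_cast hQ
  have e : (W:ℝ) * (15 * Q * |sv P Q|) - 15 * Q * S = 15 * Q * (W * |sv P Q| - S) := by ring
  rw [e, abs_mul, abs_of_pos (by positivity)] at h2
  have : 15 * (Q:ℝ) * |W * |sv P Q| - S| ≤ 15 * Q * 1 := by linarith
  exact le_of_mul_le_mul_left this (by positivity)

/-- the sign of `s` (`true`: nonnegative) -/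
def posc (P Q : ℕ) : Bool := Nat.ble (Nat.mul 2 Q) (Nat.mul 15 P)
/-- the sign of `s` (`true`: nonpositive) -/
def negc (P Q : ℕ) : Bool := Nat.ble (Nat.mul 15 P) (Nat.mul 2 Q)

lemma posc_sound {P Q : ℕ} (hQ : 0 < Q) (h : posc P Q = true) : 0 ≤ sv P Q := by
  have h1 := Nat.le_of_ble_eq_true h
  simp only [Nat.mul_eq] at h1
  have h2 : (2:ℝ) * Q ≤ 15 * P := by exact_mod_cast h1
  have hQr : (0:ℝ) < Q := by exact_mod_cast hQ
  unfold sv
  rw [sub_nonneg, div_le_div_iff₀ (by norm_num) hQr]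
  linarith

lemma negc_sound {P Q : ℕ} (hQ : 0 < Q) (h : negc P Q = true) : sv P Q ≤ 0 := by
  have h1 := Nat.le_of_ble_eq_true h
  simp only [Nat.mul_eq] at h1
  have h2 : (15:ℝ) * P ≤ 2 * Q := by exact_mod_cast h1
  have hQr : (0:ℝ) < Q := by exact_mod_cast hQ
  unfold sv
  rw [sub_nonpos, div_le_div_iff₀ hQr (by norm_num)]
  linarith

/-- `W κ s^2 / 2 ≤ D`, `κ = a / b` -/
def remc (P Q W a b D : ℕ) : Bool :=
  Nat.ble (Nat.mul (Nat.mul W a) (Nat.mul (num P Q) (num P Q)))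
    (Nat.mul (Nat.mul 2 (Nat.mul b D)) (Nat.mul (Nat.mul 15 Q) (Nat.mul 15 Q)))

lemma remc_sound {P Q W a b D : ℕ} (hQ : 0 < Q) (hb : 0 < b) (h : remc P Q W a b D = true) :
    W * ((a:ℝ) / b * sv P Q ^ 2 / 2) ≤ D := by
  unfold remc at h
  have h1 := Nat.le_of_ble_eq_true h
  simp only [Nat.mul_eq] at h1
  have h2 : ((W * a * (num P Q * num P Q) : ℕ) : ℝ) ≤ ((2 * (b * D) * (15 * Q * (15 * Q)) : ℕ) : ℝ) := by
    exact_mod_cast h1
  push_cast at h2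
  rw [num_cast hQ] at h2
  have hQr : (0:ℝ) < Q := by exact_mod_cast hQ
  have hbr : (0:ℝ) < b := by exact_mod_cast hb
  have hs : |sv P Q| * |sv P Q| = sv P Q ^ 2 := by rw [abs_mul_abs_self]; ring
  have e1 : (W:ℝ) * a * (15 * Q * |sv P Q| * (15 * Q * |sv P Q|)) =
      (15 * Q * (15 * Q)) * (W * a * sv P Q ^ 2) := by rw [← hs]; ring
  have e2 : 2 * ((b:ℝ) * D) * (15 * Q * (15 * Q)) = (15 * Q * (15 * Q)) * (2 * b * D) := by ring
  rw [e1, e2] at h2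
  have h3 := le_of_mul_le_mul_left h2 (by positivity)
  have e3 : (W:ℝ) * ((a:ℝ) / b * sv P Q ^ 2 / 2) = (W * a * sv P Q ^ 2) / (2 * b) := by field_simp
  rw [e3, div_le_iff₀ (by positivity)]
  linarith

/-- `2 ^ k P / Q` is an integer -/
def intb (P Q k : ℕ) : Bool := Nat.beq (Nat.mod (Nat.mul (Nat.pow 2 k) P) Q) 0

lemma intb_sound {P Q k : ℕ} (hQ : 0 < Q) (h : intb P Q k = true) :
    ∃ n : ℤ, (2:ℝ) ^ k * ((P:ℝ) / Q) = n := by
  have h1 := Nat.eq_of_beq_eq_true h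
  have h2 : 2 ^ k * P % Q = 0 := h1
  obtain ⟨m, hm⟩ := Nat.dvd_of_mod_eq_zero h2
  refine ⟨m, ?_⟩
  have h3 : (2:ℝ) ^ k * P = Q * m := by exact_mod_cast hm
  have hQr : (0:ℝ) < Q := by exact_mod_cast hQ
  rw [← mul_div_assoc, h3, Int.cast_natCast]
  field_simp

/-- `3 * 2 ^ k P / Q` is an integer which is not divisible by `3` -/
def thirdb1 (r Q : ℕ) : Bool := Nat.beq (Nat.mul 3 r) Q || Nat.beq (Nat.mul 3 r) (Nat.mul 2 Q)
def thirdb (P Q k : ℕ) : Bool := thirdb1 (Nat.mod (Nat.mul (Nat.pow 2 k) P) Q) Q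

lemma thirdb_sound {P Q k : ℕ} (hQ : 0 < Q) (h : thirdb P Q k = true) :
    ∃ q : ℤ, 3 * ((2:ℝ) ^ k * ((P:ℝ) / Q)) = q ∧ ¬ (3 ∣ q) := by
  unfold thirdb thirdb1 at h
  have e : Nat.mod (Nat.mul (Nat.pow 2 k) P) Q = 2 ^ k * P % Q := rfl
  rw [e] at h
  have h4 := Nat.div_add_mod (2 ^ k * P) Q
  set r := 2 ^ k * P % Q
  set d := 2 ^ k * P / Q
  have hQr : (0:ℝ) < Q := by exact_mod_cast hQ
  have h5 : (2:ℝ) ^ k * P = Q * d + r := by exact_mod_cast h4.symm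
  have h6 : 3 * ((2:ℝ) ^ k * ((P:ℝ) / Q)) = 3 * d + 3 * r / Q := by
    rw [← mul_div_assoc ((2:ℝ) ^ k), h5]
    field_simp
  rw [Bool.or_eq_true] at h
  rcases h with h | h
  · have h1 := Nat.eq_of_beq_eq_true h
    simp only [Nat.mul_eq] at h1
    have h3 : (3:ℝ) * r = Q := by exact_mod_cast h1
    refine ⟨3 * d + 1, ?_, by omega⟩
    rw [h6, h3, div_self hQr.ne']
    push_cast; ring
  · have h1 := Nat.eq_of_beq_eq_true h
    simp only [Nat.mul_eq] at h1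
    have h3 : (3:ℝ) * r = 2 * Q := by exact_mod_cast h1
    refine ⟨3 * d + 2, ?_, by omega⟩
    rw [h6, h3, mul_div_cancel_right₀ _ hQr.ne']
    push_cast; ring

end Pool.Agent.W_4481e3_h10
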