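import Pool.Agent.W_4481e3_h10.Ent
import Pool.Agent.W_4481e3_q42.SndK
import Pool.Agent.W_4481e3_h58.HdrSnd

/-!
Kill certificate for `L = 2`: the test leaf.

`run X Y t te cl k T A B r F G`: `k` steps of the first order form `(A, B, r, F, G)` with signs and
cosines from the test `T`, then the closer `cl`.
-/

namespace Pool.Agent.W_4481e3_h10

open Complex
open Pool.Agent.W_4481e3_q42 (Adm Alive Dead)
open Pool.Agent.W_4481e3_q42.Ev (sep sen InF cf k0 PhK sb_pos sb_neg ste_sound nrq nrq_sound sbp sbn)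
open Pool.Agent.W_4481e3_q12.Ev (ds ds_cast flip_fid flip_neg fid neg)
open Pool.Agent.W_MP_4481e3_an.Ev (pt)
open Pool.Agent.W_4481e3_h58.Hdr (outD outD_pz pz Tr0 Tr3)

/-- one step -/
noncomputable def step1 (s C X Y t te A B r F G : ℕ) (k : ℕ → ℕ → ℕ → ℕ → ℕ → Bool) : Bool :=
  Bool.rec (sen C X Y t te A B r F G k) (sep C X Y t te A B r F G k) (Nat.beq s 0)

/-- `k` steps, then the closer -/
noncomputable def run (X Y t te : ℕ) (cl : ℕ → ℕ → ℕ → ℕ → ℕ → ℕ → Bool) (k : ℕ) :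
    ℕ → ℕ → ℕ → ℕ → ℕ → ℕ → Bool :=
  Nat.rec cl (fun _ ih T A B r F G => step1 (fS T) (fC T) X Y t te A B r F G (ih (nx T))) k

/-- total radius -/
def tot (t r F G : ℕ) : ℕ :=
  Nat.add (Nat.add (Nat.div (Nat.mul (nrq (ds F 268435456) (ds G 268435456)) t) 65536) 1) r

/-- closer: threshold of the step -/
noncomputable def clE (t T A B r F G : ℕ) : Bool := outD (fM T) 536870912 (fR T) A B (tot t r F G)

/-- closer given by a trap -/
def clT (f : ℕ → ℕ → ℕ → Bool) (t _T A B r F G : ℕ) : Bool := f A B (tot t r F G)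

/-! ### soundness -/

variable {ε : ℂ} {X Y t te : ℕ} {E : ℂ}

lemma tot_sound (hE : ‖E - k0 X Y‖ ≤ t) {A B r F G : ℕ} {W : ℂ} (hW : InF X Y E A B r F G W) :
    ‖W - pt A B‖ ≤ tot t r F G := by
  unfold InF at hW
  have h1 : ‖cf F G‖ * 65536 ≤ nrq (ds F 268435456) (ds G 268435456) := by
    have hFr : ((ds F 268435456 : ℕ) : ℝ) = |(F:ℝ) - 268435456| := by rw [ds_cast]; norm_num
    have hGr : ((ds G 268435456 : ℕ) : ℝ) = |(G:ℝ) - 268435456| := by rw [ds_cast]; norm_num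
    apply nrq_sound
    rw [hFr, hGr, sq_abs, sq_abs, mul_pow, Complex.sq_norm, Complex.normSq_apply]
    unfold cf
    simp only
    apply le_of_eq; ring
  set nE := nrq (ds F 268435456) (ds G 268435456) with hnE
  have h2 : ‖cf F G * (E - k0 X Y)‖ ≤ nE * t / 65536 := by
    rw [norm_mul, le_div_iff₀ (by norm_num)]
    have h3 : ‖cf F G‖ * 65536 * ‖E - k0 X Y‖ ≤ nE * t :=
      mul_le_mul h1 hE (norm_nonneg _) (Nat.cast_nonneg _)
    linarith
  have h4 := Pool.Agent.W_MP_4481e3_an.Ev.div_lower (nE * t) 65536 (by norm_num)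
  push_cast at h4
  have h5 : ‖W - pt A B‖ ≤ r + nE * t / 65536 := by
    have e : W - pt A B = (W - (pt A B + cf F G * (E - k0 X Y))) + cf F G * (E - k0 X Y) := by ring
    rw [e]
    exact (norm_add_le _ _).trans (add_le_add hW h2)
  unfold tot
  simp only [Nat.add_eq, Nat.mul_eq]
  rw [← hnE]
  have e2 : Nat.div (nE * t) 65536 = nE * t / 65536 := rfl
  rw [e2]
  push_cast
  linarith

lemma step1_sound (hX : X ≤ 4194304) (hY : Y ≤ 4194304) (ht : t ≤ 16777216)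
    (hte : (t:ℝ) * 3 / 131072 + 36 ≤ te) (hE : ‖E - k0 X Y‖ ≤ t) {T : ℕ} {x : ℝ} (hc : CosOK x T)
    {A B r F G : ℕ} {W : ℂ} {k : ℕ → ℕ → ℕ → ℕ → ℕ → Bool} (hW : InF X Y E A B r F G W)
    (h : step1 (fS T) (fC T) X Y t te A B r F G k = true) :
    ∃ A' B' r' F' G' : ℕ, k A' B' r' F' G' = true ∧
      InF X Y E A' B' r' F' G' (Pool.Agent.W_4481e3_q12.Ev.stp (Real.cos (2 * Real.pi * x)) E W) := by
  unfold step1 at h
  have h1 := hc.1
  unfold sr at h1
  by_cases hs : fS T = 0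
  · rw [hs] at h
    rw [if_pos hs] at h1
    refine ste_sound (f := fid) (sb := sbp) (KF := 4504149383184384) (C := fC T)
      (D := Nat.mul (fC T) 536870912) ⟨⟨1, Or.inl rfl, flip_fid, sb_pos, by norm_num, h1⟩, rfl, hc.2,
        Real.abs_cos_le_one _⟩ hX hY ht hte hE hW h
  · have hb : Nat.beq (fS T) 0 = false := by
      cases hb : Nat.beq (fS T) 0 with
      | false => rfl
      | true => exact absurd (Nat.eq_of_beq_eq_true hb) hs
    rw [hb] at h
    rw [if_neg hs] at h1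
    refine ste_sound (f := neg) (sb := sbn) (KF := 4503049871556608) (C := fC T)
      (D := Nat.mul (fC T) 536870912) ⟨⟨-1, Or.inr rfl, flip_neg, sb_neg, by norm_num, h1⟩, rfl, hc.2,
        Real.abs_cos_le_one _⟩ hX hY ht hte hE hW h

/-- the scaled step -/
lemma stp_scale {e Z : ℂ} {x : ℝ} : Pool.Agent.W_4481e3_q12.Ev.stp (Real.cos (2 * Real.pi * x))
    (16777216 * e) (16777216 * Z) = 16777216 * Pool.Agent.W_4481e3_q42.stp e x Z := by
  unfold Pool.Agent.W_4481e3_q12.Ev.stp Pool.Agent.W_4481e3_q42.stp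
  have h : (16777216 : ℂ) ≠ 0 := by norm_num
  field_simp

theorem run_sound (hX : X ≤ 4194304) (hY : Y ≤ 4194304) (ht : t ≤ 16777216)
    (hte : (t:ℝ) * 3 / 131072 + 36 ≤ te) (hE : ‖16777216 * ε ^ 2 - k0 X Y‖ ≤ t)
    {cl : ℕ → ℕ → ℕ → ℕ → ℕ → ℕ → Bool} (k : ℕ) : ∀ {K T A B r F G : ℕ} {x : ℝ} {Z : ℂ},
    SOK ε (k + K) x T → InF X Y (16777216 * ε ^ 2) A B r F G (16777216 * Z) → Alive ε x Z →
    run X Y t te cl k T A B r F G = true →
    ∃ (T' A' B' r' F' G' : ℕ) (Z' : ℂ), cl T' A' B' r' F' G' = true ∧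
      InF X Y (16777216 * ε ^ 2) A' B' r' F' G' (16777216 * Z') ∧ Alive ε (2 ^ k * x) Z' ∧
      SOK ε K (2 ^ k * x) T' := by
  induction k with
  | zero =>
    intro K T A B r F G x Z hS hW hA h
    refine ⟨T, A, B, r, F, G, Z, h, hW, ?_, ?_⟩
    · rw [pow_zero, one_mul]; exact hA
    · rw [pow_zero, one_mul]; rw [Nat.zero_add] at hS; exact hS
  | succ k ih =>
    intro K T A B r F G x Z hS hW hA h
    rw [show k + 1 + K = (k + K) + 1 by ring] at hS
    obtain ⟨hc, _, hS'⟩ := hS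
    obtain ⟨A', B', r', F', G', h1, h2⟩ := step1_sound hX hY ht hte hE hc.1 hW h
    rw [stp_scale] at h2
    obtain ⟨T'', A'', B'', r'', F'', G'', Z'', h3, h4, h5, h6⟩ := ih hS' h2 hA.next h1
    refine ⟨T'', A'', B'', r'', F'', G'', Z'', h3, h4, ?_, ?_⟩
    · rw [pow_succ, mul_assoc]; exact h5
    · rw [pow_succ, mul_assoc]; exact h6

lemma norm16 (Z : ℂ) (A B : ℕ) : ‖Z - pz A B‖ = ‖16777216 * Z - pt A B‖ / 16777216 := by
  unfold pz
  have e : Z - pt A B / 16777216 = (16777216 * Z - pt A B) / 16777216 := by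
    have h : (16777216 : ℂ) ≠ 0 := by norm_num
    field_simp
  rw [e, norm_div]
  simp

/-- leaf closed by a threshold -/
theorem runE_sound (hX : X ≤ 4194304) (hY : Y ≤ 4194304) (ht : t ≤ 16777216)
    (hte : (t:ℝ) * 3 / 131072 + 36 ≤ te) (hE : ‖16777216 * ε ^ 2 - k0 X Y‖ ≤ t)
    {k K T A B r F G : ℕ} {x : ℝ} {Z : ℂ} (hk : k < K) (hS : SOK ε K x T)
    (hW : InF X Y (16777216 * ε ^ 2) A B r F G (16777216 * Z))
    (h : run X Y t te (clE t) k T A B r F G = true) : ¬ Alive ε x Z := by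
  intro hA
  obtain ⟨K', rfl⟩ : ∃ K', K = k + (K' + 1) := ⟨K - k - 1, by omega⟩
  obtain ⟨T', A', B', r', F', G', Z', h1, h2, h3, h4⟩ := run_sound hX hY ht hte hE k hS hW hA h
  refine h4.2.1 Z' ?_ h3
  have h5 := tot_sound hE h2
  have h6 := outD_pz h1
  have e : pz (fM T') 536870912 = (mr T' : ℂ) := by
    unfold pz mr
    push_cast
    congr 1
    apply Complex.ext
    · simp [pt]
    · simp [pt]
  rw [e] at h6
  have h7 : ‖Z' - pz A' B'‖ ≤ (tot t r' F' G' : ℝ) / 16777216 := by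
    rw [norm16]
    exact div_le_div_of_nonneg_right h5 (by norm_num)
  have h8 : ‖pz A' B' - mr T'‖ ≤ ‖Z' - mr T'‖ + ‖Z' - pz A' B'‖ := by
    have e2 : pz A' B' - mr T' = (Z' - mr T') - (Z' - pz A' B') := by ring
    rw [e2]; exact norm_sub_le _ _
  unfold rr
  linarith

/-- leaf closed by a trap -/
theorem runT_sound (hX : X ≤ 4194304) (hY : Y ≤ 4194304) (ht : t ≤ 16777216)
    (hte : (t:ℝ) * 3 / 131072 + 36 ≤ te) (hE : ‖16777216 * ε ^ 2 - k0 X Y‖ ≤ t)
    {f : ℕ → ℕ → ℕ → Bool} {k K T A B r F G : ℕ} {x : ℝ} {Z : ℂ} (hk : k ≤ K) (hS : SOK ε K x T)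
    (hf : ∀ A B r : ℕ, f A B r = true → Dead ε (2 ^ k * x) (pz A B) ((r:ℝ) / 16777216))
    (hW : InF X Y (16777216 * ε ^ 2) A B r F G (16777216 * Z))
    (h : run X Y t te (clT f t) k T A B r F G = true) : ¬ Alive ε x Z := by
  intro hA
  obtain ⟨K', rfl⟩ : ∃ K', K = k + K' := ⟨K - k, by omega⟩
  obtain ⟨T', A', B', r', F', G', Z', h1, h2, h3, h4⟩ := run_sound hX hY ht hte hE k hS hW hA h
  refine hf A' B' _ h1 Z' ?_ h3
  rw [norm16]
  exact div_le_div_of_nonneg_right (tot_sound hE h2) (by norm_num)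

end Pool.Agent.W_4481e3_h10
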