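import Pool.Agent.W_4481e3_h10.Thr
import Pool.Agent.W_4481e3_q12.SndA
import Pool.Agent.W_MP_4481e3_low.SndC

/-!
Kill certificate for `L = 2`: integer check of the tests (cosines and thresholds).

A test is one natural number `T`, `88` bits per step (lowest bits = first step), format RT:
bits `0-24`: `C = |cos| 2^24`, bit `25`: sign (`1` for a negative cosine),
bits `26-55`: `M`, the centre of the threshold is `(M - 2^29) / 2^24`,
bits `56-85`: `R`, its radius is `R / 2^24`,
bits `86-87`: flag (`1`: the base is an integer, `2`: its triple is an integer prime to three).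
-/

namespace Pool.Agent.W_4481e3_h10

open Pool.Agent.W_4481e3_q42
open Pool.Agent.W_MP_4481e3_an.Ev (cosChk cosChk_sound)
open Pool.Agent.W_4481e3_q12.Ev (ds ds_cast)

/-- fields of the first step -/
def fC (T : ℕ) : ℕ := Nat.mod T 33554432
def fS (T : ℕ) : ℕ := Nat.mod (Nat.div T 33554432) 2
def fM (T : ℕ) : ℕ := Nat.mod (Nat.div T 67108864) 1073741824
def fR (T : ℕ) : ℕ := Nat.mod (Nat.div T 72057594037927936) 1073741824
def fF (T : ℕ) : ℕ := Nat.mod (Nat.div T 77371252455336267181195264) 4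
/-- the other steps -/
def nx (T : ℕ) : ℕ := Nat.div T 309485009821345068724781056

/-- centre of the threshold -/
noncomputable def mr (T : ℕ) : ℝ := ((fM T : ℝ) - 536870912) / 16777216
/-- radius of the threshold -/
noncomputable def rr (T : ℕ) : ℝ := (fR T : ℝ) / 16777216
/-- sign of the cosine -/
noncomputable def sr (T : ℕ) : ℝ := if fS T = 0 then 1 else -1

/-- a sound step over the base `x` -/
def CosOK (x : ℝ) (T : ℕ) : Prop :=
  |16777216 * Real.cos (2 * Real.pi * x) - sr T * fC T| ≤ 1 ∧ fC T ≤ 16777216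

/-- a sound flag over the base `x` -/
def FlOK (x : ℝ) (F : ℕ) : Prop :=
  (F = 1 → ∃ n : ℤ, x = n) ∧ (F = 2 → ∃ q : ℤ, 3 * x = q ∧ ¬ (3 ∣ q))

/-- the first `K` steps are sound over the bases `x, 2 x, 4 x, ..` -/
def SOK (ε : ℂ) : ℕ → ℝ → ℕ → Prop
  | 0, _, _ => True
  | K + 1, x, T => (CosOK x T ∧ FlOK x (fF T)) ∧ Out ε x (mr T) (rr T) ∧ SOK ε K (2 * x) (nx T)

/-! ### the checks -/

def cosc (P Q T : ℕ) : Bool :=
  Nat.ble (fC T) 16777216 &&
    cosChk P Q (Bool.rec (Nat.add 16777216 (fC T)) (Nat.sub 16777216 (fC T)) (Nat.beq (fS T) 0))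

def farc (M R : ℕ) : Bool := Nat.ble (Nat.add 503316481 (ds M 536870912)) R

def smallc (C : ℕ) : Bool := Nat.ble (Nat.mul 10000 (Nat.add C 1)) 16391340032

def discc (C M R : ℕ) : Bool :=
  smallc C && Nat.ble 281474976710656 (Nat.mul (Nat.mul 2 (Nat.sub C 1)) (Nat.sub R (ds M 536870912)))

def intc (P M R : ℕ) : Bool :=
  Nat.beq P 0 && (Nat.beq M 545259520 && Nat.ble 2063597568 (Nat.mul 100 R))

def thirdc (P Q M R : ℕ) : Bool :=
  (Nat.beq (Nat.mul 3 P) Q || Nat.beq (Nat.mul 3 P) (Nat.mul 2 Q)) && (Nat.ble 1 Q &&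
    (Nat.beq M 520093696 && Nat.ble 405069103104 (Nat.mul 10000 R)))

/-- the four phases -/
def phasec (P Q M R : ℕ) : Bool :=
  Nat.beq M 536870912 && (Nat.ble 1 Q &&
    ((Nat.beq (Nat.mul 15 P) Q && Nat.ble 43956306 R) ||
      ((Nat.beq (Nat.mul 15 P) (Nat.mul 2 Q) && Nat.ble 57378079 R) ||
        ((Nat.beq (Nat.mul 15 P) (Nat.mul 4 Q) && Nat.ble 70967624 R) ||
          (Nat.beq (Nat.mul 15 P) (Nat.mul 8 Q) && Nat.ble 38587597 R)))))

def quad1 (C M R M' R' u X1 X2 : ℕ) : Bool :=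
  Nat.ble (Nat.add (Nat.add (Nat.mul R' 281474976710656) (Nat.mul (Nat.add X1 (Nat.mul 2 u)) R))
      (Nat.add (Nat.add X2 (Nat.mul u u)) (Nat.mul (Nat.add C 1) 70368744177664)))
    (Nat.mul (Nat.sub C 1) (Nat.mul R R))

def quadc (s C M R M' R' : ℕ) : Bool :=
  (Nat.ble 1 R && Nat.ble 1 C) && quad1 C M R M' R' (ds M 536870912)
    (Bool.rec (ds (Nat.add 281474976710656 (Nat.mul (Nat.mul 2 C) M)) (Nat.mul (Nat.mul 2 C) 536870912))
      (ds (Nat.add 281474976710656 (Nat.mul (Nat.mul 2 C) 536870912)) (Nat.mul (Nat.mul 2 C) M))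
      (Nat.beq s 0))
    (Bool.rec (ds (Nat.add (Nat.mul 281474976710656 M) (Nat.mul C (Nat.mul (ds M 536870912) (ds M 536870912))))
        (Nat.mul 281474976710656 M'))
      (ds (Nat.mul 281474976710656 M)
        (Nat.add (Nat.mul 281474976710656 M') (Nat.mul C (Nat.mul (ds M 536870912) (ds M 536870912)))))
      (Nat.beq s 0))

def linc (C M R M' R' : ℕ) : Bool :=
  (Nat.beq M 536870912 && smallc C) &&
    Nat.ble (Nat.add (Nat.mul (Nat.add R' (ds M' 536870912)) 281474976710656)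
      (Nat.mul (Nat.add C 1) (Nat.add (Nat.mul R R) 70368744177664))) (Nat.mul R 281474976710656)

/-- alive points lie on the near side -/
def nrc (P Q C : ℕ) : Bool :=
  smallc C || (Nat.ble 1 Q && (Nat.ble Q (Nat.mul 4 P) && Nat.ble (Nat.mul 15 P) (Nat.mul 4 Q)))

def near1 (C R R' u B X2 : ℕ) : Bool :=
  Nat.ble (Nat.mul (Nat.mul 2 (Nat.add C 1)) R) B &&
    Nat.ble (Nat.add (Nat.mul R' 281474976710656) (Nat.add (Nat.add X2 (Nat.add (Nat.mul u u) (Nat.mul R R)))
      (Nat.mul (Nat.add C 1) 70368744177664))) (Nat.mul B R)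

def nearc (s C M R M' R' : ℕ) : Bool :=
  (Nat.ble 1 R && Nat.ble 2 C) && near1 C R R' (ds M 536870912)
    (Bool.rec (Nat.sub (Nat.add 281474976710656 (Nat.mul (Nat.mul 2 C) M))
        (Nat.add (Nat.mul (Nat.mul 2 C) 536870912) (Nat.mul 2 (ds M 536870912))))
      (Nat.sub (Nat.add 281474976710656 (Nat.mul (Nat.mul 2 C) 536870912))
        (Nat.add (Nat.mul (Nat.mul 2 C) M) (Nat.mul 2 (ds M 536870912))))
      (Nat.beq s 0))
    (Bool.rec (ds (Nat.add (Nat.mul 281474976710656 M) (Nat.mul C (Nat.add (Nat.mul (ds M 536870912)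
        (ds M 536870912)) (Nat.mul R R)))) (Nat.mul 281474976710656 M'))
      (ds (Nat.mul 281474976710656 M) (Nat.add (Nat.mul 281474976710656 M') (Nat.mul C
        (Nat.add (Nat.mul (ds M 536870912) (ds M 536870912)) (Nat.mul R R)))))
      (Nat.beq s 0))

def zeroc (C M R M' R' : ℕ) : Bool :=
  Nat.beq C 0 && (Nat.beq M M' && Nat.ble (Nat.add R' 901) R)

/-- check of the threshold without the next step -/
def thr0 (P Q T : ℕ) : Bool :=
  farc (fM T) (fR T) || (discc (fC T) (fM T) (fR T) || (intc P (fM T) (fR T) ||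
    (thirdc P Q (fM T) (fR T) || phasec P Q (fM T) (fR T))))

/-- check of the threshold with the next step -/
def thr1 (P Q T : ℕ) : Bool :=
  (nrc P Q (fC T) && nearc (fS T) (fC T) (fM T) (fR T) (fM (nx T)) (fR (nx T))) || (quadc (fS T) (fC T) (fM T) (fR T) (fM (nx T)) (fR (nx T)) ||
    (linc (fC T) (fM T) (fR T) (fM (nx T)) (fR (nx T)) || zeroc (fC T) (fM T) (fR T) (fM (nx T)) (fR (nx T))))

/-- check of the flag -/
def flc (P Q F : ℕ) : Bool :=
  (Nat.beq F 0 || (Nat.beq F 1 && Nat.beq P 0)) ||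
    (Nat.beq F 2 && (Nat.ble 1 Q && (Nat.beq (Nat.mul 3 P) Q || Nat.beq (Nat.mul 3 P) (Nat.mul 2 Q))))

/-- check of the first `K` steps of the test `T` with the base `P / Q` -/
def chk (Q : ℕ) : ℕ → ℕ → ℕ → Bool
  | 0, _, _ => true
  | K + 1, P, T => (cosc P Q T && flc P Q (fF T)) &&
      ((thr0 P Q T || (Nat.ble 1 K && thr1 P Q T)) && chk Q K (Nat.mod (Nat.mul 2 P) Q) (nx T))

/-! ### soundness -/

lemma ds0 (M : ℕ) : ((ds M 536870912 : ℕ) : ℝ) = |(M:ℝ) - 536870912| := by rw [ds_cast]; norm_num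

lemma cosc_sound {P Q T : ℕ} (h : cosc P Q T = true) {x : ℝ} {n : ℤ} (hx : x = (P:ℝ) / Q + n) : CosOK x T := by
  unfold cosc at h
  rw [Bool.and_eq_true] at h
  have h1 := Nat.le_of_ble_eq_true h.1
  refine ⟨?_, h1⟩
  have e : Real.cos (2 * Real.pi * x) = Real.cos (2 * Real.pi * ((P:ℝ) / Q)) := by
    rw [hx, show 2 * Real.pi * ((P:ℝ) / Q + n) = 2 * Real.pi * ((P:ℝ) / Q) + (n:ℝ) * (2 * Real.pi) by ring,
      Real.cos_add_int_mul_two_pi]
  rw [e]
  unfold sr
  have h2 := h.2
  by_cases hs : fS T = 0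
  · rw [hs] at h2
    have h3 := cosChk_sound (show cosChk P Q (Nat.sub 16777216 (fC T)) = true from h2)
    rw [if_pos hs, one_mul]
    simp only [Nat.sub_eq] at h3
    rw [Nat.cast_sub h1, abs_le] at h3
    push_cast at h3
    rw [abs_le]
    constructor <;> linarith [h3.1, h3.2]
  · have hb : Nat.beq (fS T) 0 = false := by
      cases hb : Nat.beq (fS T) 0 with
      | false => rfl
      | true => exact absurd (Nat.eq_of_beq_eq_true hb) hs
    rw [hb] at h2
    have h3 := cosChk_sound (show cosChk P Q (Nat.add 16777216 (fC T)) = true from h2)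
    rw [if_neg hs]
    simp only [Nat.add_eq] at h3
    rw [abs_le] at h3
    push_cast at h3
    rw [abs_le]
    constructor <;> linarith [h3.1, h3.2]

variable {ε : ℂ} {x : ℝ} {P Q T C M R M' R' : ℕ}

lemma far_sound (h : farc M R = true) : Out ε x (((M:ℝ) - 536870912) / 16777216) ((R:ℝ) / 16777216) := by
  unfold farc at h
  have h1 := Nat.le_of_ble_eq_true h
  simp only [Nat.add_eq] at h1
  have h2 : ((503316481 + ds M 536870912 : ℕ) : ℝ) ≤ (R:ℝ) := by exact_mod_cast h1
  push_cast at h2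
  rw [ds0] at h2
  apply out_far
  rw [abs_div, abs_of_pos (by norm_num : (0:ℝ) < 16777216), lt_div_iff₀ (by norm_num)]
  have : (30 + |(M:ℝ) - 536870912| / 16777216) * 16777216 = 503316480 + |(M:ℝ) - 536870912| := by ring
  rw [this]
  linarith

lemma abs_mul_sr {c s : ℝ} {C : ℕ} (hs : s = 1 ∨ s = -1) (h : |16777216 * c - s * C| ≤ 1) :
    (C:ℝ) - 1 ≤ 16777216 * |c| ∧ 16777216 * |c| ≤ C + 1 := by
  have h1 : |s * C| = C := by
    rcases hs with rfl | rfl
    · rw [one_mul]; exact abs_of_nonneg (Nat.cast_nonneg _)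
    · rw [neg_one_mul, abs_neg]; exact abs_of_nonneg (Nat.cast_nonneg _)
  have h2 : |16777216 * c| = 16777216 * |c| := by rw [abs_mul, abs_of_pos (by norm_num : (0:ℝ) < 16777216)]
  have h3 := abs_sub_abs_le_abs_sub (16777216 * c) (s * C)
  have h4 := abs_sub_abs_le_abs_sub (s * C) (16777216 * c)
  rw [abs_sub_comm] at h4
  rw [h1, h2] at h3 h4
  constructor <;> linarith

lemma sr_cases (T : ℕ) : sr T = 1 ∨ sr T = -1 := by
  unfold sr; split <;> simp

lemma small_sound {c s : ℝ} (hs : s = 1 ∨ s = -1) (hc : |16777216 * c - s * C| ≤ 1) (h : smallc C = true) :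
    |c| ≤ 977 / 10000 := by
  unfold smallc at h
  have h1 := Nat.le_of_ble_eq_true h
  simp only [Nat.add_eq, Nat.mul_eq] at h1
  have h2 : ((10000 * (C + 1) : ℕ) : ℝ) ≤ 16391340032 := by exact_mod_cast h1
  push_cast at h2
  have := (abs_mul_sr hs hc).2
  linarith

lemma disc_sound {s : ℝ} (hs : s = 1 ∨ s = -1) (hc : |16777216 * Real.cos (2 * Real.pi * x) - s * C| ≤ 1)
    (h : discc C M R = true) : Out ε x (((M:ℝ) - 536870912) / 16777216) ((R:ℝ) / 16777216) := by
  unfold discc at h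
  rw [Bool.and_eq_true] at h
  have h1 := Nat.le_of_ble_eq_true h.2
  simp only [Nat.sub_eq, Nat.mul_eq] at h1
  have hC : 1 ≤ C := by
    by_contra h0
    have : C - 1 = 0 := by omega
    rw [this] at h1
    simp at h1
  have hR : ds M 536870912 ≤ R := by
    by_contra h0
    have : R - ds M 536870912 = 0 := by omega
    rw [this] at h1
    simp at h1
  have h2 : (281474976710656 : ℝ) ≤ 2 * ((C:ℝ) - 1) * ((R:ℝ) - |(M:ℝ) - 536870912|) := by
    have : ((281474976710656 : ℕ) : ℝ) ≤ ((2 * (C - 1) * (R - ds M 536870912) : ℕ) : ℝ) := by exact_mod_cast h1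
    rw [Nat.cast_mul, Nat.cast_mul, Nat.cast_sub hC, Nat.cast_sub hR, ds0] at this
    push_cast at this
    exact this
  have hRr : 0 ≤ (R:ℝ) - |(M:ℝ) - 536870912| := by
    have : ((ds M 536870912 : ℕ) : ℝ) ≤ R := by exact_mod_cast hR
    rw [ds0] at this; linarith
  apply out_disc rfl (small_sound hs hc h.1)
  rw [abs_div, abs_of_pos (by norm_num : (0:ℝ) < 16777216)]
  have h3 := (abs_mul_sr hs hc).1
  set a := |Real.cos (2 * Real.pi * x)|
  have h4 : ((C:ℝ) - 1) * ((R:ℝ) - |(M:ℝ) - 536870912|) ≤ 16777216 * a * ((R:ℝ) - |(M:ℝ) - 536870912|) :=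
    mul_le_mul_of_nonneg_right h3 hRr
  have e : a * ((R:ℝ) / 16777216 - |(M:ℝ) - 536870912| / 16777216) =
    16777216 * a * ((R:ℝ) - |(M:ℝ) - 536870912|) / 281474976710656 := by ring
  rw [e, le_div_iff₀ (by norm_num)]
  linarith

lemma int_sound (hR : Reg ε) {n : ℤ} (hx : x = (P:ℝ) / Q + n) (h : intc P M R = true) :
    Out ε x (((M:ℝ) - 536870912) / 16777216) ((R:ℝ) / 16777216) := by
  unfold intc at h
  rw [Bool.and_eq_true, Bool.and_eq_true] at h
  obtain ⟨h0, h1, h2⟩ := h
  have h0 := Nat.eq_of_beq_eq_true h0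
  have h1 := Nat.eq_of_beq_eq_true h1
  have h2 := Nat.le_of_ble_eq_true h2
  simp only [Nat.mul_eq] at h2
  subst h0 h1
  have e : (((545259520 : ℕ) : ℝ) - 536870912) / 16777216 = 1 / 2 := by norm_num
  rw [e]
  apply out_int hR (n := n) (by rw [hx]; simp)
  have : ((2063597568 : ℕ) : ℝ) ≤ ((100 * R : ℕ) : ℝ) := by exact_mod_cast h2
  push_cast at this
  rw [le_div_iff₀ (by norm_num)]
  linarith

lemma third_sound (hR : Reg ε) {n : ℤ} (hx : x = (P:ℝ) / Q + n) (h : thirdc P Q M R = true) :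
    Out ε x (((M:ℝ) - 536870912) / 16777216) ((R:ℝ) / 16777216) := by
  unfold thirdc at h
  rw [Bool.and_eq_true, Bool.and_eq_true, Bool.and_eq_true, Bool.or_eq_true] at h
  obtain ⟨h0, hQ, h1, h2⟩ := h
  have hQ := Nat.le_of_ble_eq_true hQ
  have h1 := Nat.eq_of_beq_eq_true h1
  have h2 := Nat.le_of_ble_eq_true h2
  simp only [Nat.mul_eq] at h2
  subst h1
  have e : (((520093696 : ℕ) : ℝ) - 536870912) / 16777216 = -1 := by norm_num
  rw [e]
  have hQr : (0:ℝ) < Q := by exact_mod_cast hQ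
  have hρ : (24144 : ℝ) / 10000 ≤ (R:ℝ) / 16777216 := by
    have : ((405069103104 : ℕ) : ℝ) ≤ ((10000 * R : ℕ) : ℝ) := by exact_mod_cast h2
    push_cast at this
    rw [le_div_iff₀ (by norm_num)]
    linarith
  rcases h0 with h0 | h0
  · have h0 := Nat.eq_of_beq_eq_true h0
    simp only [Nat.mul_eq] at h0
    have h3 : (3:ℝ) * P = Q := by exact_mod_cast h0
    refine out_third hR (q := 1 + 3 * n) ?_ (by omega) hρ
    rw [hx]
    push_cast
    have : 3 * ((P:ℝ) / Q) = 1 := by rw [← mul_div_assoc, h3]; exact div_self hQr.ne'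
    linarith
  · have h0 := Nat.eq_of_beq_eq_true h0
    simp only [Nat.mul_eq] at h0
    have h3 : (3:ℝ) * P = 2 * Q := by exact_mod_cast h0
    refine out_third hR (q := 2 + 3 * n) ?_ (by omega) hρ
    rw [hx]
    push_cast
    have : 3 * ((P:ℝ) / Q) = 2 := by
      rw [← mul_div_assoc, h3]; exact mul_div_cancel_right₀ _ hQr.ne'
    linarith

open Pool.Agent.W_4481e3_q12 (Good.zero Good.one Good.two Good.three) in
lemma phase_sound (hR : Reg ε) {n : ℤ} (hx : x = (P:ℝ) / Q + n) (h : phasec P Q M R = true) :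
    Out ε x (((M:ℝ) - 536870912) / 16777216) ((R:ℝ) / 16777216) := by
  unfold phasec at h
  rw [Bool.and_eq_true, Bool.and_eq_true, Bool.or_eq_true, Bool.or_eq_true, Bool.or_eq_true,
    Bool.and_eq_true, Bool.and_eq_true, Bool.and_eq_true, Bool.and_eq_true] at h
  obtain ⟨h0, hQ, h1⟩ := h
  have h0 := Nat.eq_of_beq_eq_true h0
  have hQ := Nat.le_of_ble_eq_true hQ
  subst h0
  have e : (((536870912 : ℕ) : ℝ) - 536870912) / 16777216 = 0 := by norm_num
  rw [e]
  have hQr : (0:ℝ) < Q := by exact_mod_cast hQ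
  have base : ∀ a : ℕ, Nat.mul 15 P = a * Q → (P:ℝ) / Q = a / 15 := by
    intro a ha
    simp only [Nat.mul_eq] at ha
    have : (15:ℝ) * P = a * Q := by exact_mod_cast ha
    rw [div_eq_div_iff hQr.ne' (by norm_num)]
    linarith
  rcases h1 with ⟨a, b⟩ | ⟨a, b⟩ | ⟨a, b⟩ | ⟨a, b⟩
  · have a := Nat.eq_of_beq_eq_true a
    have b := Nat.le_of_ble_eq_true b
    have bb : (43956306 : ℝ) ≤ R := by exact_mod_cast b
    have hb := base 1 (by rw [a, one_mul])
    refine out_phase (p := 0) (n := n) (by rw [hx, hb]; norm_num) (T := 43956305 / 16777216)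
      (fun w hw => hw.zero hR.le (by norm_num)) ?_
    rw [div_lt_div_iff_of_pos_right (by norm_num)]
    linarith
  · have a := Nat.eq_of_beq_eq_true a
    have b := Nat.le_of_ble_eq_true b
    have bb : (57378079 : ℝ) ≤ R := by exact_mod_cast b
    have hb := base 2 a
    refine out_phase (p := 1) (n := n) (by rw [hx, hb]; norm_num) (T := 57378078 / 16777216)
      (fun w hw => hw.one hR.le (by norm_num)) ?_
    rw [div_lt_div_iff_of_pos_right (by norm_num)]
    linarith
  · have a := Nat.eq_of_beq_eq_true a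
    have b := Nat.le_of_ble_eq_true b
    have bb : (70967624 : ℝ) ≤ R := by exact_mod_cast b
    have hb := base 4 a
    refine out_phase (p := 2) (n := n) (by rw [hx, hb]; norm_num) (T := 70967623 / 16777216)
      (fun w hw => hw.two hR.le (by norm_num)) ?_
    rw [div_lt_div_iff_of_pos_right (by norm_num)]
    linarith
  · have a := Nat.eq_of_beq_eq_true a
    have b := Nat.le_of_ble_eq_true b
    have bb : (38587597 : ℝ) ≤ R := by exact_mod_cast b
    have hb := base 8 a
    refine out_phase (p := 3) (n := n) (by rw [hx, hb]; norm_num) (T := 23 / 10)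
      (fun w hw => hw.three hR.le (by norm_num)) ?_
    rw [lt_div_iff₀ (by norm_num)]
    linarith

lemma flc_sound {F : ℕ} {n : ℤ} (hx : x = (P:ℝ) / Q + n) (h : flc P Q F = true) : FlOK x F := by
  unfold flc at h
  rw [Bool.or_eq_true, Bool.or_eq_true, Bool.and_eq_true, Bool.and_eq_true, Bool.and_eq_true,
    Bool.or_eq_true] at h
  rcases h with (h | ⟨h1, h2⟩) | ⟨h1, hQ, h2⟩
  · have h := Nat.eq_of_beq_eq_true h
    subst h
    exact ⟨fun h => absurd h (by norm_num), fun h => absurd h (by norm_num)⟩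
  · have h1 := Nat.eq_of_beq_eq_true h1
    have h2 := Nat.eq_of_beq_eq_true h2
    subst h1 h2
    exact ⟨fun _ => ⟨n, by rw [hx]; simp⟩, fun h => absurd h (by norm_num)⟩
  · have h1 := Nat.eq_of_beq_eq_true h1
    have hQ := Nat.le_of_ble_eq_true hQ
    have hQr : (0:ℝ) < Q := by exact_mod_cast hQ
    subst h1
    refine ⟨fun h => absurd h (by norm_num), fun _ => ?_⟩
    rcases h2 with h2 | h2
    · have h2 := Nat.eq_of_beq_eq_true h2
      simp only [Nat.mul_eq] at h2
      have h3 : (3:ℝ) * P = Q := by exact_mod_cast h2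
      refine ⟨1 + 3 * n, ?_, by omega⟩
      rw [hx]
      push_cast
      have : 3 * ((P:ℝ) / Q) = 1 := by rw [← mul_div_assoc, h3]; exact div_self hQr.ne'
      linarith
    · have h2 := Nat.eq_of_beq_eq_true h2
      simp only [Nat.mul_eq] at h2
      have h3 : (3:ℝ) * P = 2 * Q := by exact_mod_cast h2
      refine ⟨2 + 3 * n, ?_, by omega⟩
      rw [hx]
      push_cast
      have : 3 * ((P:ℝ) / Q) = 2 := by
        rw [← mul_div_assoc, h3]; exact mul_div_cancel_right₀ _ hQr.ne'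
      linarith

lemma zero_sound (hR : Reg ε) {s : ℝ} (hs : s = 1 ∨ s = -1)
    (hc : |16777216 * Real.cos (2 * Real.pi * x) - s * C| ≤ 1) (h : zeroc C M R M' R' = true)
    (hn : Out ε (2 * x) (((M':ℝ) - 536870912) / 16777216) ((R':ℝ) / 16777216)) :
    Out ε x (((M:ℝ) - 536870912) / 16777216) ((R:ℝ) / 16777216) := by
  unfold zeroc at h
  rw [Bool.and_eq_true, Bool.and_eq_true] at h
  obtain ⟨h0, h1, h2⟩ := h
  have h0 := Nat.eq_of_beq_eq_true h0
  have h1 := Nat.eq_of_beq_eq_true h1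
  have h2 := Nat.le_of_ble_eq_true h2
  simp only [Nat.add_eq] at h2
  subst h0 h1
  refine out_zero rfl hR.le hn ?_
  have h3 : ((R' + 901 : ℕ) : ℝ) ≤ (R:ℝ) := by exact_mod_cast h2
  push_cast at h3
  have h4 := (abs_mul_sr hs hc).2
  push_cast at h4
  rw [le_div_iff₀ (by norm_num)]
  have : ((R':ℝ) / 16777216 + |Real.cos (2 * Real.pi * x)| * 901) * 16777216 =
    R' + (16777216 * |Real.cos (2 * Real.pi * x)|) * 901 := by ring
  rw [this]
  linarith

lemma lin_sound (hR : Reg ε) {s : ℝ} (hs : s = 1 ∨ s = -1)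
    (hc : |16777216 * Real.cos (2 * Real.pi * x) - s * C| ≤ 1) (h : linc C M R M' R' = true)
    (hn : Out ε (2 * x) (((M':ℝ) - 536870912) / 16777216) ((R':ℝ) / 16777216)) :
    Out ε x (((M:ℝ) - 536870912) / 16777216) ((R:ℝ) / 16777216) := by
  unfold linc at h
  rw [Bool.and_eq_true, Bool.and_eq_true] at h
  obtain ⟨⟨h0, h1⟩, h2⟩ := h
  have h0 := Nat.eq_of_beq_eq_true h0
  have h2 := Nat.le_of_ble_eq_true h2
  simp only [Nat.add_eq, Nat.mul_eq] at h2
  subst h0
  have e : (((536870912 : ℕ) : ℝ) - 536870912) / 16777216 = 0 := by norm_num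
  rw [e]
  refine out_lin rfl hR.le (small_sound hs hc h1) hn (by positivity) ?_
  have h3 : (((R' + ds M' 536870912) * 281474976710656 + (C + 1) * (R * R + 70368744177664) : ℕ) : ℝ) ≤
    ((R * 281474976710656 : ℕ) : ℝ) := by exact_mod_cast h2
  push_cast at h3
  rw [ds0] at h3
  have h4 := (abs_mul_sr hs hc).2
  set a := |Real.cos (2 * Real.pi * x)|
  rw [abs_div, abs_of_pos (by norm_num : (0:ℝ) < 16777216)]
  have h5 : (16777216 * a) * ((R:ℝ) * R + 70368744177664) ≤ (C + 1) * ((R:ℝ) * R + 70368744177664) :=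
    mul_le_mul_of_nonneg_right h4 (by positivity)
  have e2 : ((R':ℝ) / 16777216 + |(M':ℝ) - 536870912| / 16777216 + a * ((R:ℝ) / 16777216) ^ 2 + a / 4) =
    ((R' + |(M':ℝ) - 536870912|) * 281474976710656 + (16777216 * a) * ((R:ℝ) * R + 70368744177664)) /
      4722366482869645213696 := by ring
  rw [e2, div_le_iff₀ (by norm_num)]
  have e3 : (R:ℝ) / 16777216 * 4722366482869645213696 = R * 281474976710656 := by ring
  rw [e3]
  linarith

lemma nrc_sound {s : ℝ} (hs : s = 1 ∨ s = -1) (hc : |16777216 * Real.cos (2 * Real.pi * x) - s * C| ≤ 1)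
    {n : ℤ} (hx : x = (P:ℝ) / Q + n) (h : nrc P Q C = true) :
    ∀ Z : ℂ, Alive ε x Z → 2 * Real.cos (2 * Real.pi * x) * Z.re < 1 := by
  unfold nrc at h
  rw [Bool.or_eq_true, Bool.and_eq_true, Bool.and_eq_true] at h
  rcases h with h | ⟨hQ, h1, h2⟩
  · exact near_disc rfl (small_sound hs hc h)
  · have hQ := Nat.le_of_ble_eq_true hQ
    have h1 := Nat.le_of_ble_eq_true h1
    have h2 := Nat.le_of_ble_eq_true h2
    simp only [Nat.mul_eq] at h1 h2
    have hQr : (0:ℝ) < Q := by exact_mod_cast hQ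
    have h1 : (Q:ℝ) ≤ 4 * P := by exact_mod_cast h1
    have h2 : (15:ℝ) * P ≤ 4 * Q := by exact_mod_cast h2
    have e : x - n = (P:ℝ) / Q := by rw [hx]; ring
    refine near_half rfl n ?_ ?_
    · rw [e, div_le_div_iff₀ (by norm_num) hQr]; linarith
    · rw [e, div_le_div_iff₀ hQr (by norm_num)]; linarith

lemma near_core {s μ ν C R c B : ℝ} (hs : s = 1 ∨ s = -1) (hc : |16777216 * c - s * C| ≤ 1) (hC : 0 ≤ C)
    (hR : 0 ≤ R) {R' : ℝ} (hB : B ≤ 281474976710656 - 2 * s * C * μ - 2 * |μ|)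
    (hB2 : 2 * (C + 1) * R ≤ B)
    (h : R' * 281474976710656 + ((|281474976710656 * (μ - ν) - s * C * (μ ^ 2 + R ^ 2)| + (μ ^ 2 + R ^ 2)) +
      (C + 1) * 70368744177664) ≤ B * R) :
    2 * |c| * (R / 16777216) ≤ 1 - 2 * c * (μ / 16777216) ∧
    R' / 16777216 + |μ / 16777216 - ν / 16777216 - c * ((μ / 16777216) ^ 2 + (R / 16777216) ^ 2)| + |c| / 4 ≤
      (1 - 2 * c * (μ / 16777216)) * (R / 16777216) := by
  obtain ⟨θ, hθ⟩ : ∃ θ, 16777216 * c - s * C = θ := ⟨_, rfl⟩
  rw [hθ] at hc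
  have hcv : c = (s * C + θ) / 16777216 := by rw [eq_div_iff (by norm_num)]; linarith
  have hμ : |θ * μ| ≤ |μ| := by
    rw [abs_mul]
    have : |θ| * |μ| ≤ 1 * |μ| := mul_le_mul_of_nonneg_right hc (abs_nonneg _)
    linarith
  have hβ : B / 281474976710656 ≤ 1 - 2 * c * (μ / 16777216) := by
    have e : 1 - 2 * c * (μ / 16777216) = (281474976710656 - 2 * s * C * μ - 2 * (θ * μ)) / 281474976710656 := by
      rw [hcv]; ring
    rw [e]
    apply div_le_div_of_nonneg_right _ (by norm_num)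
    have := le_abs_self (θ * μ)
    linarith
  have hsC : |s * C| = C := by
    rcases hs with rfl | rfl
    · rw [one_mul, abs_of_nonneg hC]
    · rw [neg_one_mul, abs_neg, abs_of_nonneg hC]
  have hca : |c| ≤ (C + 1) / 16777216 := by
    rw [hcv, abs_div, abs_of_pos (by norm_num : (0:ℝ) < 16777216)]
    apply div_le_div_of_nonneg_right _ (by norm_num)
    have := abs_add_le (s * C) θ
    linarith
  constructor
  · refine le_trans ?_ hβ
    rw [le_div_iff₀ (by norm_num)]
    have e : 2 * |c| * (R / 16777216) * 281474976710656 = 2 * (|c| * 16777216) * R := by ring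
    rw [e]
    refine le_trans ?_ hB2
    have : |c| * 16777216 ≤ C + 1 := by
      rw [le_div_iff₀ (by norm_num)] at hca; exact hca
    have := mul_le_mul_of_nonneg_right this hR
    linarith
  · have t1 : |μ / 16777216 - ν / 16777216 - c * ((μ / 16777216) ^ 2 + (R / 16777216) ^ 2)| ≤
        (|281474976710656 * (μ - ν) - s * C * (μ ^ 2 + R ^ 2)| + (μ ^ 2 + R ^ 2)) / 4722366482869645213696 := by
      have e : μ / 16777216 - ν / 16777216 - c * ((μ / 16777216) ^ 2 + (R / 16777216) ^ 2) =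
          (281474976710656 * (μ - ν) - s * C * (μ ^ 2 + R ^ 2) - θ * (μ ^ 2 + R ^ 2)) / 4722366482869645213696 := by
        rw [hcv]; ring
      rw [e, abs_div, abs_of_pos (by norm_num : (0:ℝ) < 4722366482869645213696)]
      apply div_le_div_of_nonneg_right _ (by norm_num)
      refine (abs_sub _ _).trans ?_
      have a0 : 0 ≤ μ ^ 2 + R ^ 2 := by positivity
      have : |θ * (μ ^ 2 + R ^ 2)| ≤ μ ^ 2 + R ^ 2 := by
        rw [abs_mul, abs_of_nonneg a0]
        have : |θ| * (μ ^ 2 + R ^ 2) ≤ 1 * (μ ^ 2 + R ^ 2) := mul_le_mul_of_nonneg_right hc a0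
        linarith
      linarith
    have t2 : B / 281474976710656 * (R / 16777216) ≤ (1 - 2 * c * (μ / 16777216)) * (R / 16777216) :=
      mul_le_mul_of_nonneg_right hβ (by positivity)
    refine le_trans ?_ t2
    have e1 : B / 281474976710656 * (R / 16777216) = B * R / 4722366482869645213696 := by ring
    rw [e1, le_div_iff₀ (by norm_num)]
    refine le_trans ?_ h
    rw [le_div_iff₀ (by norm_num)] at t1
    rw [le_div_iff₀ (by norm_num)] at hca
    linarith

lemma near_sound (hR : Reg ε) {T : ℕ} (hc : |16777216 * Real.cos (2 * Real.pi * x) - sr T * C| ≤ 1)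
    {n : ℤ} (hx : x = (P:ℝ) / Q + n) (hnr : nrc P Q C = true)
    (h : nearc (fS T) C M R M' R' = true)
    (hn : Out ε (2 * x) (((M':ℝ) - 536870912) / 16777216) ((R':ℝ) / 16777216)) :
    Out ε x (((M:ℝ) - 536870912) / 16777216) ((R:ℝ) / 16777216) := by
  unfold nearc at h
  rw [Bool.and_eq_true, Bool.and_eq_true] at h
  obtain ⟨⟨h0, h1⟩, h2⟩ := h
  have h0 := Nat.le_of_ble_eq_true h0
  have h1 := Nat.le_of_ble_eq_true h1
  have hRr : (1:ℝ) ≤ R := by exact_mod_cast h0
  have hCr : (2:ℝ) ≤ C := by exact_mod_cast h1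
  have hc0 : Real.cos (2 * Real.pi * x) ≠ 0 := by
    intro h00
    have := (abs_mul_sr (sr_cases T) hc).1
    rw [h00, abs_zero] at this
    linarith
  have key : ∀ B X2 : ℕ, near1 C R R' (ds M 536870912) B X2 = true →
      2 * ((C:ℝ) + 1) * R ≤ B ∧
      (R':ℝ) * 281474976710656 + (((X2:ℝ) + (((M:ℝ) - 536870912) ^ 2 + (R:ℝ) ^ 2)) +
        ((C:ℝ) + 1) * 70368744177664) ≤ B * R := by
    intro B X2 h3
    unfold near1 at h3
    rw [Bool.and_eq_true] at h3
    have h4 := Nat.le_of_ble_eq_true h3.1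
    have h5 := Nat.le_of_ble_eq_true h3.2
    simp only [Nat.add_eq, Nat.mul_eq] at h4 h5
    have h4' : ((2 * (C + 1) * R : ℕ) : ℝ) ≤ (B : ℝ) := by exact_mod_cast h4
    have h5' : ((R' * 281474976710656 + (X2 + (ds M 536870912 * ds M 536870912 + R * R) +
      (C + 1) * 70368744177664) : ℕ) : ℝ) ≤ ((B * R : ℕ) : ℝ) := by exact_mod_cast h5
    push_cast at h4' h5'
    rw [ds0, abs_mul_abs_self] at h5'
    refine ⟨h4', ?_⟩
    have e : ((M:ℝ) - 536870912) ^ 2 + (R:ℝ) ^ 2 = ((M:ℝ) - 536870912) * ((M:ℝ) - 536870912) + R * R := by ring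
    rw [e]
    exact h5'
  have fin : ∀ B X2 : ℕ, near1 C R R' (ds M 536870912) B X2 = true →
      (B:ℝ) ≤ 281474976710656 - 2 * sr T * C * ((M:ℝ) - 536870912) - 2 * |(M:ℝ) - 536870912| →
      (X2:ℝ) = |281474976710656 * (((M:ℝ) - 536870912) - ((M':ℝ) - 536870912)) -
        sr T * C * (((M:ℝ) - 536870912) ^ 2 + (R:ℝ) ^ 2)| →
      Out ε x (((M:ℝ) - 536870912) / 16777216) ((R:ℝ) / 16777216) := by
    intro B X2 h3 hB hX
    obtain ⟨k1, k2⟩ := key B X2 h3
    rw [hX] at k2
    obtain ⟨g1, g2⟩ := near_core (sr_cases T) hc (by linarith) (by linarith) hB k1 k2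
    exact out_near rfl hc0 hR.le (nrc_sound (sr_cases T) hc hx hnr) hn (by positivity) g1 g2
  by_cases hs : fS T = 0
  · have hsr : sr T = 1 := by unfold sr; rw [if_pos hs]
    rw [hs] at h2
    have h3 : near1 C R R' (ds M 536870912)
      (Nat.sub (Nat.add 281474976710656 (Nat.mul (Nat.mul 2 C) 536870912))
        (Nat.add (Nat.mul (Nat.mul 2 C) M) (Nat.mul 2 (ds M 536870912))))
      (ds (Nat.mul 281474976710656 M) (Nat.add (Nat.mul 281474976710656 M') (Nat.mul C
        (Nat.add (Nat.mul (ds M 536870912) (ds M 536870912)) (Nat.mul R R))))) = true := h2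
    refine fin _ _ h3 ?_ ?_
    · have k := (key _ _ h3).1
      have hpos : 0 < Nat.sub (Nat.add 281474976710656 (Nat.mul (Nat.mul 2 C) 536870912))
        (Nat.add (Nat.mul (Nat.mul 2 C) M) (Nat.mul 2 (ds M 536870912))) := by
        by_contra h00
        have h00 := Nat.eq_zero_of_not_pos h00
        rw [h00] at k
        have : 0 < 2 * ((C:ℝ) + 1) * R := by positivity
        push_cast at k
        linarith
      have hle : Nat.add (Nat.mul (Nat.mul 2 C) M) (Nat.mul 2 (ds M 536870912)) ≤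
          Nat.add 281474976710656 (Nat.mul (Nat.mul 2 C) 536870912) := by
        have := Nat.sub_pos_iff_lt.1 hpos
        exact this.le
      have e : ((Nat.sub (Nat.add 281474976710656 (Nat.mul (Nat.mul 2 C) 536870912))
        (Nat.add (Nat.mul (Nat.mul 2 C) M) (Nat.mul 2 (ds M 536870912))) : ℕ) : ℝ) =
        ((Nat.add 281474976710656 (Nat.mul (Nat.mul 2 C) 536870912) : ℕ) : ℝ) -
        ((Nat.add (Nat.mul (Nat.mul 2 C) M) (Nat.mul 2 (ds M 536870912)) : ℕ) : ℝ) := by
        rw [← Nat.cast_sub hle]; rfl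
      rw [e, hsr]
      simp only [Nat.add_eq, Nat.mul_eq]
      push_cast
      rw [ds0]
      linarith
    · rw [hsr, ds_cast]
      refine congrArg _ ?_
      simp only [Nat.add_eq, Nat.mul_eq]
      push_cast
      rw [ds0, abs_mul_abs_self]
      ring
  · have hsr : sr T = -1 := by unfold sr; rw [if_neg hs]
    have hb : Nat.beq (fS T) 0 = false := by
      cases hb : Nat.beq (fS T) 0 with
      | false => rfl
      | true => exact absurd (Nat.eq_of_beq_eq_true hb) hs
    rw [hb] at h2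
    have h3 : near1 C R R' (ds M 536870912)
      (Nat.sub (Nat.add 281474976710656 (Nat.mul (Nat.mul 2 C) M))
        (Nat.add (Nat.mul (Nat.mul 2 C) 536870912) (Nat.mul 2 (ds M 536870912))))
      (ds (Nat.add (Nat.mul 281474976710656 M) (Nat.mul C (Nat.add (Nat.mul (ds M 536870912)
        (ds M 536870912)) (Nat.mul R R)))) (Nat.mul 281474976710656 M')) = true := h2
    refine fin _ _ h3 ?_ ?_
    · have k := (key _ _ h3).1
      have hpos : 0 < Nat.sub (Nat.add 281474976710656 (Nat.mul (Nat.mul 2 C) M))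
        (Nat.add (Nat.mul (Nat.mul 2 C) 536870912) (Nat.mul 2 (ds M 536870912))) := by
        by_contra h00
        have h00 := Nat.eq_zero_of_not_pos h00
        rw [h00] at k
        have : 0 < 2 * ((C:ℝ) + 1) * R := by positivity
        push_cast at k
        linarith
      have hle : Nat.add (Nat.mul (Nat.mul 2 C) 536870912) (Nat.mul 2 (ds M 536870912)) ≤
          Nat.add 281474976710656 (Nat.mul (Nat.mul 2 C) M) := by
        have := Nat.sub_pos_iff_lt.1 hpos
        exact this.le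
      have e : ((Nat.sub (Nat.add 281474976710656 (Nat.mul (Nat.mul 2 C) M))
        (Nat.add (Nat.mul (Nat.mul 2 C) 536870912) (Nat.mul 2 (ds M 536870912))) : ℕ) : ℝ) =
        ((Nat.add 281474976710656 (Nat.mul (Nat.mul 2 C) M) : ℕ) : ℝ) -
        ((Nat.add (Nat.mul (Nat.mul 2 C) 536870912) (Nat.mul 2 (ds M 536870912)) : ℕ) : ℝ) := by
        rw [← Nat.cast_sub hle]; rfl
      rw [e, hsr]
      simp only [Nat.add_eq, Nat.mul_eq]
      push_cast
      rw [ds0]
      linarith
    · rw [hsr, ds_cast]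
      refine congrArg _ ?_
      simp only [Nat.add_eq, Nat.mul_eq]
      push_cast
      rw [ds0, abs_mul_abs_self]
      ring

lemma quad_core {s μ ν C R c : ℝ} (hs : s = 1 ∨ s = -1) (hc : |16777216 * c - s * C| ≤ 1) (hC : 1 ≤ C)
    (hR : 0 < R) {R' : ℝ} (hR' : 0 ≤ R')
    (h : R' * 281474976710656 + (|281474976710656 - 2 * s * C * μ| + 2 * |μ|) * R +
      (|281474976710656 * (μ - ν) - s * C * μ ^ 2| + μ ^ 2 + (C + 1) * 70368744177664) ≤ (C - 1) * (R * R)) :
    R' / 16777216 + |1 - 2 * c * (μ / 16777216)| * (R / 16777216) +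
      |μ / 16777216 - c * (μ / 16777216) ^ 2 - ν / 16777216| + |c| / 4 ≤ |c| * (R / 16777216) ^ 2 := by
  obtain ⟨θ, hθ⟩ : ∃ θ, 16777216 * c - s * C = θ := ⟨_, rfl⟩
  rw [hθ] at hc
  have hcv : c = (s * C + θ) / 16777216 := by rw [eq_div_iff (by norm_num)]; linarith
  have hsC : |s * C| = C := by
    rcases hs with rfl | rfl
    · rw [one_mul, abs_of_pos (by linarith)]
    · rw [neg_one_mul, abs_neg, abs_of_pos (by linarith)]
  have hca : |c| = |s * C + θ| / 16777216 := by
    rw [hcv, abs_div, abs_of_pos (by norm_num : (0:ℝ) < 16777216)]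
  have c1 : |s * C + θ| ≤ C + 1 := by
    have := abs_add_le (s * C) θ
    linarith
  have c2 : C - 1 ≤ |s * C + θ| := by
    have := abs_sub_abs_le_abs_sub (s * C) (-θ)
    rw [sub_neg_eq_add, abs_neg] at this
    linarith
  have t1 : |1 - 2 * c * (μ / 16777216)| ≤ (|281474976710656 - 2 * s * C * μ| + 2 * |μ|) / 281474976710656 := by
    have e : 1 - 2 * c * (μ / 16777216) = (281474976710656 - 2 * s * C * μ - 2 * θ * μ) / 281474976710656 := by
      rw [hcv]; ring
    rw [e, abs_div, abs_of_pos (by norm_num : (0:ℝ) < 281474976710656)]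
    apply div_le_div_of_nonneg_right _ (by norm_num)
    refine (abs_sub _ _).trans ?_
    have : |2 * θ * μ| ≤ 2 * |μ| := by
      rw [abs_mul, abs_mul, abs_of_pos (by norm_num : (0:ℝ) < 2)]
      have : |θ| * |μ| ≤ 1 * |μ| := mul_le_mul_of_nonneg_right hc (abs_nonneg _)
      nlinarith
    linarith
  have t2 : |μ / 16777216 - c * (μ / 16777216) ^ 2 - ν / 16777216| ≤
      (|281474976710656 * (μ - ν) - s * C * μ ^ 2| + μ ^ 2) / 4722366482869645213696 := by
    have e : μ / 16777216 - c * (μ / 16777216) ^ 2 - ν / 16777216 =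
        (281474976710656 * (μ - ν) - s * C * μ ^ 2 - θ * μ ^ 2) / 4722366482869645213696 := by
      rw [hcv]; ring
    rw [e, abs_div, abs_of_pos (by norm_num : (0:ℝ) < 4722366482869645213696)]
    apply div_le_div_of_nonneg_right _ (by norm_num)
    refine (abs_sub _ _).trans ?_
    have : |θ * μ ^ 2| ≤ μ ^ 2 := by
      rw [abs_mul, abs_of_nonneg (sq_nonneg μ)]
      have : |θ| * μ ^ 2 ≤ 1 * μ ^ 2 := mul_le_mul_of_nonneg_right hc (sq_nonneg _)
      linarith
    linarith
  have t3 : |1 - 2 * c * (μ / 16777216)| * (R / 16777216) ≤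
      (|281474976710656 - 2 * s * C * μ| + 2 * |μ|) / 281474976710656 * (R / 16777216) :=
    mul_le_mul_of_nonneg_right t1 (by positivity)
  have t4 : |c| / 4 ≤ (C + 1) / 16777216 / 4 := by
    rw [hca]
    apply div_le_div_of_nonneg_right _ (by norm_num)
    exact div_le_div_of_nonneg_right c1 (by norm_num)
  have t5 : (C - 1) / 16777216 * (R / 16777216) ^ 2 ≤ |c| * (R / 16777216) ^ 2 := by
    rw [hca]
    exact mul_le_mul_of_nonneg_right (div_le_div_of_nonneg_right c2 (by norm_num)) (sq_nonneg _)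
  refine le_trans ?_ t5
  refine (add_le_add (add_le_add (add_le_add_right t3 _) t2) t4).trans ?_
  have e1 : R' / 16777216 + (|281474976710656 - 2 * s * C * μ| + 2 * |μ|) / 281474976710656 * (R / 16777216) +
      (|281474976710656 * (μ - ν) - s * C * μ ^ 2| + μ ^ 2) / 4722366482869645213696 +
      (C + 1) / 16777216 / 4 =
      (R' * 281474976710656 + (|281474976710656 - 2 * s * C * μ| + 2 * |μ|) * R +
      (|281474976710656 * (μ - ν) - s * C * μ ^ 2| + μ ^ 2 + (C + 1) * 70368744177664)) /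
      4722366482869645213696 := by ring
  have e2 : (C - 1) / 16777216 * (R / 16777216) ^ 2 = (C - 1) * (R * R) / 4722366482869645213696 := by ring
  rw [e1, e2]
  exact div_le_div_of_nonneg_right h (by norm_num)

lemma quad_sound (hR : Reg ε) {T : ℕ} (hc : |16777216 * Real.cos (2 * Real.pi * x) - sr T * C| ≤ 1)
    (h : quadc (fS T) C M R M' R' = true)
    (hn : Out ε (2 * x) (((M':ℝ) - 536870912) / 16777216) ((R':ℝ) / 16777216)) :
    Out ε x (((M:ℝ) - 536870912) / 16777216) ((R:ℝ) / 16777216) := by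
  unfold quadc at h
  rw [Bool.and_eq_true, Bool.and_eq_true] at h
  obtain ⟨⟨h0, h1⟩, h2⟩ := h
  have h0 := Nat.le_of_ble_eq_true h0
  have h1 := Nat.le_of_ble_eq_true h1
  have hRr : (1:ℝ) ≤ R := by exact_mod_cast h0
  have hCr : (1:ℝ) ≤ C := by exact_mod_cast h1
  refine out_quad rfl hR.le hn (by positivity) (by positivity) ?_
  refine quad_core (sr_cases T) hc hCr (by linarith) (Nat.cast_nonneg _) ?_
  have key : ∀ X1 X2 : ℕ, quad1 C M R M' R' (ds M 536870912) X1 X2 = true →
      (R':ℝ) * 281474976710656 + ((X1:ℝ) + 2 * |(M:ℝ) - 536870912|) * R +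
      ((X2:ℝ) + ((M:ℝ) - 536870912) ^ 2 + ((C:ℝ) + 1) * 70368744177664) ≤ ((C:ℝ) - 1) * (R * R) := by
    intro X1 X2 h3
    unfold quad1 at h3
    have h4 := Nat.le_of_ble_eq_true h3
    simp only [Nat.add_eq, Nat.mul_eq, Nat.sub_eq] at h4
    have h5 : ((R' * 281474976710656 + (X1 + 2 * ds M 536870912) * R +
      (X2 + ds M 536870912 * ds M 536870912 + (C + 1) * 70368744177664) : ℕ) : ℝ) ≤
      (((C - 1) * (R * R) : ℕ) : ℝ) := by exact_mod_cast h4
    rw [Nat.cast_mul (C - 1), Nat.cast_sub h1] at h5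
    push_cast at h5
    rw [ds0, abs_mul_abs_self] at h5
    nlinarith
  unfold sr
  by_cases hs : fS T = 0
  · rw [if_pos hs]
    rw [hs] at h2
    have h3 := key (ds (Nat.add 281474976710656 (Nat.mul (Nat.mul 2 C) 536870912)) (Nat.mul (Nat.mul 2 C) M))
      (ds (Nat.mul 281474976710656 M)
        (Nat.add (Nat.mul 281474976710656 M') (Nat.mul C (Nat.mul (ds M 536870912) (ds M 536870912))))) h2
    simp only [Nat.add_eq, Nat.mul_eq] at h3
    rw [ds_cast, ds_cast] at h3
    push_cast at h3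
    rw [ds0, abs_mul_abs_self] at h3
    have a1 : (281474976710656 : ℝ) + 2 * C * 536870912 - 2 * C * M =
      281474976710656 - 2 * 1 * C * ((M:ℝ) - 536870912) := by ring
    have a2 : (281474976710656 : ℝ) * M - (281474976710656 * M' + C * (((M:ℝ) - 536870912) * ((M:ℝ) - 536870912))) =
      281474976710656 * (((M:ℝ) - 536870912) - ((M':ℝ) - 536870912)) - 1 * C * ((M:ℝ) - 536870912) ^ 2 := by ring
    rw [a1, a2] at h3
    exact h3
  · rw [if_neg hs]
    have hb : Nat.beq (fS T) 0 = false := by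
      cases hb : Nat.beq (fS T) 0 with
      | false => rfl
      | true => exact absurd (Nat.eq_of_beq_eq_true hb) hs
    rw [hb] at h2
    have h3 := key (ds (Nat.add 281474976710656 (Nat.mul (Nat.mul 2 C) M)) (Nat.mul (Nat.mul 2 C) 536870912))
      (ds (Nat.add (Nat.mul 281474976710656 M) (Nat.mul C (Nat.mul (ds M 536870912) (ds M 536870912))))
        (Nat.mul 281474976710656 M')) h2
    simp only [Nat.add_eq, Nat.mul_eq] at h3
    rw [ds_cast, ds_cast] at h3
    push_cast at h3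
    rw [ds0, abs_mul_abs_self] at h3
    have a1 : (281474976710656 : ℝ) + 2 * C * M - 2 * C * 536870912 =
      281474976710656 - 2 * (-1) * C * ((M:ℝ) - 536870912) := by ring
    have a2 : (281474976710656 : ℝ) * M + C * (((M:ℝ) - 536870912) * ((M:ℝ) - 536870912)) - 281474976710656 * M' =
      281474976710656 * (((M:ℝ) - 536870912) - ((M':ℝ) - 536870912)) - (-1) * C * ((M:ℝ) - 536870912) ^ 2 := by ring
    rw [a1, a2] at h3
    exact h3

theorem chk_sound (hR : Reg ε) (hQ : 0 < Q) (K : ℕ) : ∀ {P T : ℕ} {x : ℝ} {n : ℤ}, chk Q K P T = true →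
    x = (P:ℝ) / Q + n → SOK ε K x T := by
  induction K with
  | zero => intros; trivial
  | succ K ih =>
    intro P T x n h hx
    unfold chk at h
    rw [Bool.and_eq_true, Bool.and_eq_true, Bool.and_eq_true] at h
    obtain ⟨⟨h1, hf⟩, h2, h3⟩ := h
    have hc := cosc_sound h1 hx
    have hnext : SOK ε K (2 * x) (nx T) := by
      refine ih (n := 2 * n + ((2 * P / Q : ℕ) : ℤ)) h3 ?_
      rw [hx]
      simp only [Nat.mul_eq]
      have e : Nat.mod (2 * P) Q = 2 * P % Q := rfl
      rw [e]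
      have h4 := Nat.div_add_mod (2 * P) Q
      have h5 : (2:ℝ) * P = Q * ((2 * P / Q : ℕ) : ℝ) + ((2 * P % Q : ℕ) : ℝ) := by exact_mod_cast h4.symm
      have hQr : (0:ℝ) < Q := by exact_mod_cast hQ
      have h6 : ((2 * P % Q : ℕ) : ℝ) / Q = 2 * ((P:ℝ) / Q) - ((2 * P / Q : ℕ) : ℝ) := by
        rw [div_eq_iff hQr.ne', sub_mul]
        have h7 : 2 * ((P:ℝ) / Q) * Q = 2 * P := by field_simp
        rw [h7]
        linarith
      rw [Int.cast_add, Int.cast_mul, Int.cast_natCast, h6]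
      push_cast
      ring
    refine ⟨⟨hc, flc_sound hx hf⟩, ?_, hnext⟩
    unfold mr rr
    rw [Bool.or_eq_true] at h2
    rcases h2 with h2 | h2
    · unfold thr0 at h2
      rw [Bool.or_eq_true, Bool.or_eq_true, Bool.or_eq_true, Bool.or_eq_true] at h2
      rcases h2 with h2 | h2 | h2 | h2 | h2
      · exact far_sound h2
      · exact disc_sound (sr_cases T) hc.1 h2
      · exact int_sound hR hx h2
      · exact third_sound hR hx h2
      · exact phase_sound hR hx h2
    · rw [Bool.and_eq_true] at h2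
      have hK := Nat.le_of_ble_eq_true h2.1
      obtain ⟨K, rfl⟩ : ∃ K', K = K' + 1 := ⟨K - 1, by omega⟩
      have hn : Out ε (2 * x) (mr (nx T)) (rr (nx T)) := hnext.2.1
      unfold mr rr at hn
      have h2 := h2.2
      unfold thr1 at h2
      rw [Bool.or_eq_true, Bool.or_eq_true, Bool.or_eq_true, Bool.and_eq_true] at h2
      rcases h2 with h2 | h2 | h2 | h2
      · exact near_sound hR hc.1 hx h2.1 h2.2 hn
      · exact quad_sound hR hc.1 h2 hn
      · exact lin_sound hR (sr_cases T) hc.1 h2 hn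
      · exact zero_sound hR (sr_cases T) hc.1 h2 hn

end Pool.Agent.W_4481e3_h10
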