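import Pool.Agent.W_4481e3_h10.Tab
import Pool.Agent.W_4481e3_q25.CellR

/-!
Kill certificate for `L = 2`, format RT: check of the table of the tests.

The table `T` is a list of slots of `2880` bits; the list `l` holds the bases `(P, Q)` of the tests.
-/

namespace Pool.Agent.W_4481e3_h10

open Pool.Agent.W_4481e3_q42
open Pool.Agent.W_4481e3_q12.Ev (ds ds_cast)
open Pool.Agent.W_4481e3_q25.EvR (wd slot fl TestOK TabOK)

/-! ### fields -/

lemma shr_div (T k : ℕ) : Nat.shiftRight T k = T / 2 ^ k := Nat.shiftRight_eq_div_pow T k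

lemma land26 (T : ℕ) : Nat.land T 67108863 = fC T + 33554432 * fS T := by
  have h : Nat.land T 67108863 = T % 67108864 := Nat.and_two_pow_sub_one_eq_mod T 26
  rw [h]
  show T % 67108864 = T % 33554432 + 33554432 * (T / 33554432 % 2)
  omega

lemma fC_lt (T : ℕ) : fC T < 33554432 := Nat.mod_lt _ (by norm_num)
lemma fS_lt (T : ℕ) : fS T < 2 := Nat.mod_lt _ (by norm_num)

lemma landM (T : ℕ) : Nat.land (Nat.shiftRight T 26) 1073741823 = fM T := by
  have h : Nat.land (Nat.shiftRight T 26) 1073741823 = Nat.shiftRight T 26 % 1073741824 :=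
    Nat.and_two_pow_sub_one_eq_mod _ 30
  rw [h, shr_div]
  rfl

lemma landR (T : ℕ) : Nat.land (Nat.shiftRight T 56) 1073741823 = fR T := by
  have h : Nat.land (Nat.shiftRight T 56) 1073741823 = Nat.shiftRight T 56 % 1073741824 :=
    Nat.and_two_pow_sub_one_eq_mod _ 30
  rw [h, shr_div]
  rfl

lemma landF (T : ℕ) : fl T = fF T := by
  have h : Nat.land (Nat.shiftRight T 86) 3 = Nat.shiftRight T 86 % 4 :=
    Nat.and_two_pow_sub_one_eq_mod _ 2
  unfold fl
  rw [h, shr_div]
  rfl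

lemma nx_eq (T : ℕ) : nx T = Nat.shiftRight T 88 := by
  rw [shr_div]
  rfl

/-! ### words -/

/-- the words of a test -/
def it (T : ℕ) : ℕ → ℕ
  | 0 => T
  | k + 1 => nx (it T k)

lemma it_nx (T : ℕ) (k : ℕ) : it (nx T) k = it T (k + 1) := by
  induction k with
  | zero => rfl
  | succ k ih => show nx (it (nx T) k) = nx (it T (k + 1)); rw [ih]

lemma wd_eq (S : ℕ) (k : ℕ) : wd S k = it (Nat.shiftRight S 64) k := by
  induction k with
  | zero => rfl
  | succ k ih =>
    show Nat.shiftRight (wd S k) 88 = nx (it (Nat.shiftRight S 64) k)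
    rw [nx_eq, ih]

/-- a sound word over the base `x` -/
structure WOK (x : ℝ) (T : ℕ) : Prop where
  c : CosOK x T
  f : FlOK x (fF T)
  o : ∀ ε : ℂ, Reg ε → Out ε x (mr T) (rr T)

/-- the cosines and the flags do not depend on `ε` -/
lemma chk_words {Q : ℕ} (hQ : 0 < Q) (K : ℕ) : ∀ {P T : ℕ} {x : ℝ} {n : ℤ}, chk Q K P T = true →
    x = (P:ℝ) / Q + n → ∀ k < K, WOK (2 ^ k * x) (it T k) := by
  induction K with
  | zero => intro P T x n _ _ k hk; exact absurd hk (Nat.not_lt_zero _)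
  | succ K ih =>
    intro P T x n h hx k hk
    have h' := h
    unfold chk at h
    rw [Bool.and_eq_true, Bool.and_eq_true, Bool.and_eq_true] at h
    obtain ⟨⟨h1, hf⟩, -, h3⟩ := h
    cases k with
    | zero =>
      rw [pow_zero, one_mul]
      exact ⟨cosc_sound h1 hx, flc_sound hx hf, fun ε hR => (chk_sound hR hQ (K + 1) h' hx).2.1⟩
    | succ k =>
      have hx2 : 2 * x = ((Nat.mod (Nat.mul 2 P) Q : ℕ) : ℝ) / Q + ((2 * n + ((2 * P / Q : ℕ) : ℤ) : ℤ) : ℝ) := by
        rw [hx]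
        simp only [Nat.mul_eq]
        have e : Nat.mod (2 * P) Q = 2 * P % Q := rfl
        rw [e]
        have h4 := Nat.div_add_mod (2 * P) Q
        have h5 : (2:ℝ) * P = Q * ((2 * P / Q : ℕ) : ℝ) + ((2 * P % Q : ℕ) : ℝ) := by exact_mod_cast h4.symm
        have hQr : (0:ℝ) < Q := by exact_mod_cast hQ
        have h6 : ((2 * P % Q : ℕ) : ℝ) / Q = 2 * ((P:ℝ) / Q) - ((2 * P / Q : ℕ) : ℝ) := by
          rw [div_eq_iff hQr.ne', sub_mul]
          have h7 : 2 * ((P:ℝ) / Q) * Q = 2 * P := by field_simp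
          rw [h7]
          linarith
        rw [Int.cast_add, Int.cast_mul, Int.cast_natCast, h6]
        push_cast
        ring
      have h8 := ih h3 hx2 k (Nat.lt_of_succ_lt_succ hk)
      rw [it_nx] at h8
      rwa [show (2:ℝ) ^ (k + 1) * x = 2 ^ k * (2 * x) by rw [pow_succ]; ring]

/-! ### the check of a slot -/

/-- header: `s = P / Q - 2 / 15`; `b = true` for a negative shift -/
def hdc (P Q s : ℕ) (b : Bool) : Bool :=
  Nat.ble (Bool.rec (ds (Nat.add (Nat.mul s (Nat.mul 15 Q)) (Nat.mul 34359738368 Q)) (Nat.mul 257698037760 P))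
    (ds (Nat.mul 34359738368 Q) (Nat.add (Nat.mul 257698037760 P) (Nat.mul s (Nat.mul 15 Q)))) b) (Nat.mul 15 Q)

/-- check of the slot `S` of the test with the base `P / Q` -/
def sck (P Q S : ℕ) : Bool :=
  (Nat.ble 1 Q && hdc P Q (Nat.land S 1099511627775) (Nat.ble 1 (Nat.land (Nat.shiftRight S 40) 1))) &&
    chk Q (Nat.land (Nat.shiftRight S 41) 63) P (Nat.shiftRight S 64)

lemma hdc_sound {P Q s : ℕ} {b : Bool} (hQ : 0 < Q) (h : hdc P Q s b = true) :
    |(if b = true then -(s:ℝ) else (s:ℝ)) - 17179869184 * ((P:ℝ) / Q - 2 / 15)| ≤ 1 := by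
  have hQr : (0:ℝ) < Q := by exact_mod_cast hQ
  have key : ∀ v : ℝ, |v * (15 * Q) + 34359738368 * Q - 257698037760 * P| ≤ 15 * Q →
      |v - 17179869184 * ((P:ℝ) / Q - 2 / 15)| ≤ 1 := by
    intro v hv
    have e : v * (15 * Q) + 34359738368 * Q - 257698037760 * P =
        (15 * Q) * (v - 17179869184 * ((P:ℝ) / Q - 2 / 15)) := by
      field_simp
      ring
    rw [e, abs_mul, abs_of_pos (by positivity)] at hv
    have : 15 * (Q:ℝ) * |v - 17179869184 * ((P:ℝ) / Q - 2 / 15)| ≤ 15 * Q * 1 := by linarith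
    exact le_of_mul_le_mul_left this (by positivity)
  cases b with
  | false =>
    have h1 := Nat.le_of_ble_eq_true (show Nat.ble (ds (Nat.add (Nat.mul s (Nat.mul 15 Q)) (Nat.mul 34359738368 Q))
      (Nat.mul 257698037760 P)) (Nat.mul 15 Q) = true from h)
    have h2 : ((ds (Nat.add (Nat.mul s (Nat.mul 15 Q)) (Nat.mul 34359738368 Q))
      (Nat.mul 257698037760 P) : ℕ) : ℝ) ≤ ((Nat.mul 15 Q : ℕ) : ℝ) := by exact_mod_cast h1
    rw [ds_cast] at h2
    simp only [Nat.mul_eq, Nat.add_eq] at h2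
    push_cast at h2
    rw [if_neg (by decide)]
    exact key _ h2
  | true =>
    have h1 := Nat.le_of_ble_eq_true (show Nat.ble (ds (Nat.mul 34359738368 Q)
      (Nat.add (Nat.mul 257698037760 P) (Nat.mul s (Nat.mul 15 Q)))) (Nat.mul 15 Q) = true from h)
    have h2 : ((ds (Nat.mul 34359738368 Q)
      (Nat.add (Nat.mul 257698037760 P) (Nat.mul s (Nat.mul 15 Q))) : ℕ) : ℝ) ≤ ((Nat.mul 15 Q : ℕ) : ℝ) := by
      exact_mod_cast h1
    rw [ds_cast] at h2
    simp only [Nat.mul_eq, Nat.add_eq] at h2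
    push_cast at h2
    rw [if_pos rfl]
    apply key
    rw [show -(s:ℝ) * (15 * Q) + 34359738368 * Q - 257698037760 * P =
      34359738368 * (Q:ℝ) - (257698037760 * P + s * (15 * Q)) by ring]
    exact h2

theorem sck_sound {P Q S : ℕ} (h : sck P Q S = true) : TestOK S ((P:ℝ) / Q) := by
  unfold sck at h
  rw [Bool.and_eq_true, Bool.and_eq_true] at h
  obtain ⟨⟨hQ, hh⟩, h⟩ := h
  have hQ := Nat.le_of_ble_eq_true hQ
  have hw := chk_words hQ _ h (x := (P:ℝ) / Q) (n := 0) (by simp)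
  refine ⟨?_, ?_, ?_, ?_, ?_⟩
  · have h1 := hdc_sound hQ hh
    have h2 : Nat.land (Nat.shiftRight S 40) 1 = Nat.shiftRight S 40 % 2 := Nat.and_one_is_mod _
    rcases Nat.mod_two_eq_zero_or_one (Nat.shiftRight S 40) with h3 | h3
    · left
      rw [h2, h3] at h1 ⊢
      refine ⟨rfl, ?_⟩
      rw [if_neg (by decide)] at h1
      exact h1
    · right
      rw [h2, h3] at h1 ⊢
      refine ⟨rfl, ?_⟩
      rw [if_pos (by decide)] at h1
      exact h1
  · intro k hk
    obtain ⟨⟨c1, c2⟩, -, -⟩ := hw k hk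
    rw [wd_eq, land26]
    have hs := fS_lt (it (Nat.shiftRight S 64) k)
    refine ⟨fC (it (Nat.shiftRight S 64) k), c2, ?_⟩
    by_cases h0 : fS (it (Nat.shiftRight S 64) k) = 0
    · left
      refine ⟨by rw [h0]; simp, ?_⟩
      unfold sr at c1
      rw [if_pos h0, one_mul, abs_sub_comm] at c1
      exact c1
    · right
      have h1 : fS (it (Nat.shiftRight S 64) k) = 1 := by omega
      refine ⟨by rw [h1], ?_⟩
      unfold sr at c1
      rw [if_neg h0, abs_sub_comm, neg_one_mul] at c1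
      exact c1
  · intro k hk ε Z hA hreg hZ
    have ho := (hw k hk).o ε ⟨hA, hreg⟩ Z
    rw [wd_eq, landR, landM] at hZ
    apply ho
    unfold mr rr
    rw [div_le_iff₀ (by norm_num)]
    refine hZ.trans (le_of_eq ?_)
    have e : (16777216 * Z - (⟨(fM (it (Nat.shiftRight S 64) k) : ℝ) - 536870912, 0⟩ : ℂ)) =
        (Z - (((((fM (it (Nat.shiftRight S 64) k) : ℝ) - 536870912) / 16777216 : ℝ)) : ℂ)) * 16777216 := by
      have : (⟨(fM (it (Nat.shiftRight S 64) k) : ℝ) - 536870912, 0⟩ : ℂ) =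
          (((fM (it (Nat.shiftRight S 64) k) : ℝ) - 536870912 : ℝ) : ℂ) := by
        apply Complex.ext <;> simp
      rw [this]
      push_cast
      ring
    rw [e, norm_mul]
    have h16 : ‖(16777216 : ℂ)‖ = 16777216 := by simp
    rw [h16]
  · intro k hk hF
    rw [wd_eq, landF] at hF
    exact (hw k hk).f.1 hF
  · intro k hk hF
    rw [wd_eq, landF] at hF
    exact (hw k hk).f.2 hF

/-! ### the check of a table -/

/-- check of the table; `M` is the mask of a slot -/
def tck (M : ℕ) : List (ℕ × ℕ) → ℕ → Bool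
  | [], T => Nat.beq T 0
  | (P, Q) :: l, T => sck P Q (Nat.land T M) && tck M l (Nat.shiftRight T 2880)

lemma sl_zero (M T : ℕ) : Nat.land (Nat.shiftRight T (Nat.mul 2880 0)) M = Nat.land T M := by
  rw [shr_div, show Nat.mul 2880 0 = 0 from rfl, pow_zero, Nat.div_one]

lemma sl_succ (M T i : ℕ) : Nat.land (Nat.shiftRight T (Nat.mul 2880 (i + 1))) M =
    Nat.land (Nat.shiftRight (Nat.shiftRight T 2880) (Nat.mul 2880 i)) M := by
  rw [shr_div, shr_div, shr_div, Nat.div_div_eq_div_mul, ← pow_add]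
  congr 3
  simp only [Nat.mul_eq]
  ring

lemma sl_nil (M i : ℕ) : Nat.land (Nat.shiftRight 0 (Nat.mul 2880 i)) M = 0 := by
  rw [shr_div, Nat.zero_div]
  exact Nat.zero_and _

lemma test_nil : TestOK 0 (2 / 15) := by
  have hL : Nat.land (Nat.shiftRight 0 41) 63 = 0 := by decide
  have hB : Nat.ble 1 (Nat.land (Nat.shiftRight 0 40) 1) = false := by decide
  have h0 : Nat.land 0 1099511627775 = 0 := by decide
  refine ⟨?_, ?_, ?_, ?_, ?_⟩
  · left
    rw [h0]
    exact ⟨by decide, by norm_num⟩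
  all_goals
    intro k hk
    rw [hL] at hk
    exact absurd hk (Nat.not_lt_zero _)

theorem tck_sound (M : ℕ) (l : List (ℕ × ℕ)) : ∀ {T : ℕ}, tck M l T = true →
    ∀ i, ∃ x : ℝ, TestOK (Nat.land (Nat.shiftRight T (Nat.mul 2880 i)) M) x := by
  induction l with
  | nil =>
    intro T h i
    have h := Nat.eq_of_beq_eq_true h
    rw [h, sl_nil]
    exact ⟨2 / 15, test_nil⟩
  | cons a l ih =>
    obtain ⟨P, Q⟩ := a
    intro T h i
    unfold tck at h
    rw [Bool.and_eq_true] at h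
    cases i with
    | zero =>
      rw [sl_zero]
      exact ⟨_, sck_sound h.1⟩
    | succ i =>
      rw [sl_succ]
      exact ih h.2 i

theorem tabOK_of {l : List (ℕ × ℕ)} {T : ℕ} (h : tck (Nat.sub (Nat.pow 2 2880) 1) l T = true) : TabOK T :=
  fun i => tck_sound _ l h i

end Pool.Agent.W_4481e3_h10
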