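import Pool.Agent.W_4481e3_q42.Close
import Pool.Agent.W_4481e3_q12.Contr

/-!
Kill certificate for `L = 2`: thresholds of the early escape, real lemmas.

`Out ε x m ρ`: every point at distance `≥ ρ` from the real point `m` is dead over the base `x`.
-/

open Filter Topology

namespace Pool.Agent.W_4481e3_h10

open Pool.Agent.W_4481e3_q42

/-- everything outside of the open disc with centre `m` and radius `ρ` is dead over `x` -/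
def Out (ε : ℂ) (x m ρ : ℝ) : Prop := ∀ Z : ℂ, ρ ≤ ‖Z - m‖ → ¬ Alive ε x Z

variable {ε : ℂ} {x m ρ m' ρ' c : ℝ}

theorem Out.mono {ρ₁ : ℝ} (h : Out ε x m ρ) (h1 : ρ ≤ ρ₁) : Out ε x m ρ₁ :=
  fun Z hZ => h Z (h1.trans hZ)

theorem Out.congr_base {x' : ℝ} (h : Out ε x' m ρ) (n : ℤ) (hx : x' = x + n) : Out ε x m ρ := by
  intro Z hZ hA
  exact h Z hZ (hx ▸ hA.add_int n)

/-- far away -/
theorem out_far (h : 30 + |m| < ρ) : Out ε x m ρ := by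
  intro Z hZ
  apply not_alive_far
  have h1 : ‖Z - m‖ ≤ ‖Z‖ + ‖(m:ℂ)‖ := norm_sub_le _ _
  rw [Complex.norm_real, Real.norm_eq_abs] at h1
  linarith

/-- small cosine -/
theorem out_disc (hc : Real.cos (2 * Real.pi * x) = c) (h1 : |c| ≤ 977 / 10000)
    (h : 1 / 2 ≤ |c| * (ρ - |m|)) : Out ε x m ρ := by
  intro Z hZ
  apply not_alive_disc hc h1
  have h2 : ‖Z - m‖ ≤ ‖Z‖ + ‖(m:ℂ)‖ := norm_sub_le _ _
  rw [Complex.norm_real, Real.norm_eq_abs] at h2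
  have h3 : |c| * (ρ - |m|) ≤ |c| * ‖Z‖ := mul_le_mul_of_nonneg_left (by linarith) (abs_nonneg _)
  linarith

/-- quadratic recursion -/
theorem out_quad (hc : Real.cos (2 * Real.pi * x) = c) (he : ‖ε ^ 2‖ ≤ 1 / 4) (h : Out ε (2 * x) m' ρ')
    (hρ : 0 < ρ) (hρ' : 0 ≤ ρ')
    (hq : ρ' + |1 - 2 * c * m| * ρ + |m - c * m ^ 2 - m'| + |c| / 4 ≤ |c| * ρ ^ 2) : Out ε x m ρ := by
  intro Z hZ hA
  refine h _ ?_ hA.next
  unfold stp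
  rw [hc]
  set t := ‖Z - m‖ with ht
  have e1 : Z + (c:ℂ) * (ε ^ 2 - Z ^ 2) - m' =
      -((c:ℂ) * (Z - m) ^ 2) + (((1 - 2 * c * m : ℝ) : ℂ) * (Z - m) + ((m - c * m ^ 2 - m' : ℝ) : ℂ) +
        (c:ℂ) * ε ^ 2) := by
    push_cast; ring
  rw [e1]
  have n1 : ‖(((1 - 2 * c * m : ℝ) : ℂ) * (Z - m) + ((m - c * m ^ 2 - m' : ℝ) : ℂ) + (c:ℂ) * ε ^ 2)‖ ≤
      |1 - 2 * c * m| * t + |m - c * m ^ 2 - m'| + |c| / 4 := by
    refine (norm_add_le _ _).trans ?_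
    have h1 := norm_add_le (((1 - 2 * c * m : ℝ) : ℂ) * (Z - m)) ((m - c * m ^ 2 - m' : ℝ) : ℂ)
    rw [norm_mul, Complex.norm_real, Complex.norm_real, Real.norm_eq_abs, Real.norm_eq_abs] at h1
    rw [norm_mul, Complex.norm_real, Real.norm_eq_abs]
    have h2 : |c| * ‖ε ^ 2‖ ≤ |c| * (1 / 4) := mul_le_mul_of_nonneg_left he (abs_nonneg _)
    linarith
  have n2 : ‖-((c:ℂ) * (Z - m) ^ 2)‖ = |c| * t ^ 2 := by
    rw [norm_neg, norm_mul, Complex.norm_real, Real.norm_eq_abs, norm_pow]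
  have n3 := norm_sub_le_norm_add (-((c:ℂ) * (Z - m) ^ 2))
    (((1 - 2 * c * m : ℝ) : ℂ) * (Z - m) + ((m - c * m ^ 2 - m' : ℝ) : ℂ) + (c:ℂ) * ε ^ 2)
  rw [n2] at n3
  -- monotone in `t`
  have k1 : |1 - 2 * c * m| ≤ |c| * ρ := by
    have a1 := abs_nonneg (m - c * m ^ 2 - m')
    have a2 := abs_nonneg c
    have : |1 - 2 * c * m| * ρ ≤ |c| * ρ * ρ := by nlinarith
    exact le_of_mul_le_mul_right this hρ
  have k2 : |1 - 2 * c * m| * (t - ρ) ≤ |c| * ρ * (t - ρ) := mul_le_mul_of_nonneg_right k1 (by linarith)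
  have k3 : 0 ≤ |c| * (t * (t - ρ)) := by
    have : 0 ≤ t - ρ := by linarith
    have : 0 ≤ t := norm_nonneg _
    positivity
  have k4 : |c| * ρ * (t - ρ) + |c| * ρ ^ 2 ≤ |c| * t ^ 2 := by nlinarith
  nlinarith

/-- recursion for small cosines, centre `0` -/
theorem out_lin (hc : Real.cos (2 * Real.pi * x) = c) (he : ‖ε ^ 2‖ ≤ 1 / 4) (h1 : |c| ≤ 977 / 10000)
    (h : Out ε (2 * x) m' ρ') (hρ : 0 ≤ ρ)
    (hq : ρ' + |m'| + |c| * ρ ^ 2 + |c| / 4 ≤ ρ) : Out ε x 0 ρ := by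
  intro Z hZ hA
  rw [Complex.ofReal_zero, sub_zero] at hZ
  rcases le_or_gt (1 / 2) (|c| * ‖Z‖) with h2 | h2
  · exact not_alive_disc hc h1 h2 hA
  refine h _ ?_ hA.next
  unfold stp
  rw [hc]
  set t := ‖Z‖ with ht
  have e1 : Z + (c:ℂ) * (ε ^ 2 - Z ^ 2) - m' = Z + (-((c:ℂ) * Z ^ 2) + (c:ℂ) * ε ^ 2 - (m':ℂ)) := by ring
  rw [e1]
  have n1 : ‖-((c:ℂ) * Z ^ 2) + (c:ℂ) * ε ^ 2 - (m':ℂ)‖ ≤ |c| * t ^ 2 + |c| / 4 + |m'| := by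
    refine (norm_sub_le _ _).trans ?_
    have a1 := norm_add_le (-((c:ℂ) * Z ^ 2)) ((c:ℂ) * ε ^ 2)
    rw [norm_neg, norm_mul, norm_mul, Complex.norm_real, Real.norm_eq_abs, norm_pow, ← ht] at a1
    rw [Complex.norm_real, Real.norm_eq_abs]
    have a2 : |c| * ‖ε ^ 2‖ ≤ |c| * (1 / 4) := mul_le_mul_of_nonneg_left he (abs_nonneg _)
    linarith
  have n3 := norm_sub_le_norm_add Z (-((c:ℂ) * Z ^ 2) + (c:ℂ) * ε ^ 2 - (m':ℂ))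
  have k1 : 0 ≤ (t - ρ) * (1 - |c| * (t + ρ)) := by
    have a1 : |c| * ρ ≤ |c| * t := mul_le_mul_of_nonneg_left hZ (abs_nonneg _)
    have a2 : 0 ≤ 1 - |c| * (t + ρ) := by nlinarith
    exact mul_nonneg (by linarith) a2
  nlinarith

/-- recursion for a vanishing cosine -/
theorem out_zero (hc : Real.cos (2 * Real.pi * x) = c) (he : ‖ε ^ 2‖ ≤ 1 / 4)
    (h : Out ε (2 * x) m ρ') (hq : ρ' + |c| * 901 ≤ ρ) : Out ε x m ρ := by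
  intro Z hZ hA
  rcases lt_or_ge 30 ‖Z‖ with h2 | h2
  · exact not_alive_far h2 hA
  refine h _ ?_ hA.next
  unfold stp
  rw [hc]
  have e1 : Z + (c:ℂ) * (ε ^ 2 - Z ^ 2) - m = (Z - m) + (c:ℂ) * (ε ^ 2 - Z ^ 2) := by ring
  rw [e1]
  have n1 : ‖(c:ℂ) * (ε ^ 2 - Z ^ 2)‖ ≤ |c| * 901 := by
    rw [norm_mul, Complex.norm_real, Real.norm_eq_abs]
    apply mul_le_mul_of_nonneg_left _ (abs_nonneg _)
    have a1 := norm_sub_le (ε ^ 2) (Z ^ 2)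
    have a2 : ‖Z ^ 2‖ ≤ 30 ^ 2 := by
      rw [norm_pow]; exact pow_le_pow_left₀ (norm_nonneg _) h2 2
    linarith
  have n3 := norm_sub_le_norm_add (Z - m) ((c:ℂ) * (ε ^ 2 - Z ^ 2))
  linarith

/-! ### one loop of Cassini's oval -/

/-- a loop of Cassini's oval lies in the disc over its real diameter -/
lemma lobe {μ ρ : ℝ} {v : ℂ} (h0 : 0 ≤ ρ) (h1 : ρ ≤ μ) (hv : 0 ≤ v.re) (h : ρ ≤ ‖v - μ‖) :
    2 * μ * ρ ≤ ‖v ^ 2 - ((μ ^ 2 + ρ ^ 2 : ℝ) : ℂ)‖ := by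
  obtain ⟨x, y⟩ := v
  simp only at hv
  have hμ : 0 ≤ μ := h0.trans h1
  have e1 : ‖(⟨x, y⟩ : ℂ) - μ‖ ^ 2 = (x - μ) ^ 2 + y ^ 2 := by
    rw [Complex.sq_norm, Complex.normSq_apply]; simp; ring
  have e2 : ‖(⟨x, y⟩ : ℂ) ^ 2 - ((μ ^ 2 + ρ ^ 2 : ℝ) : ℂ)‖ ^ 2 =
      (x ^ 2 - y ^ 2 - (μ ^ 2 + ρ ^ 2)) ^ 2 + (2 * x * y) ^ 2 := by
    rw [Complex.sq_norm, Complex.normSq_apply]
    have a1 : ((⟨x, y⟩ : ℂ) ^ 2 - ((μ ^ 2 + ρ ^ 2 : ℝ) : ℂ)).re = x ^ 2 - y ^ 2 - (μ ^ 2 + ρ ^ 2) := by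
      rw [Complex.sub_re, Complex.ofReal_re, pow_two, Complex.mul_re]; ring
    have a2 : ((⟨x, y⟩ : ℂ) ^ 2 - ((μ ^ 2 + ρ ^ 2 : ℝ) : ℂ)).im = 2 * x * y := by
      rw [Complex.sub_im, Complex.ofReal_im, pow_two, Complex.mul_im]; ring
    rw [a1, a2]; ring
  have h2 : ρ ^ 2 ≤ (x - μ) ^ 2 + y ^ 2 := by
    rw [← e1]; exact pow_le_pow_left₀ h0 h 2
  have key : (2 * μ * ρ) ^ 2 ≤ (x ^ 2 - y ^ 2 - (μ ^ 2 + ρ ^ 2)) ^ 2 + (2 * x * y) ^ 2 := by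
    rcases le_or_gt ((x - μ) ^ 2) (ρ ^ 2) with hc | hc
    · have f0 : (x ^ 2 - y ^ 2 - (μ ^ 2 + ρ ^ 2)) ^ 2 + (2 * x * y) ^ 2 - (2 * μ * ρ) ^ 2 =
          ((x - μ) ^ 2 + y ^ 2 - ρ ^ 2) * ((x ^ 2 + y ^ 2) + (2 * μ * x - (μ ^ 2 - ρ ^ 2)) + 2 * (μ ^ 2 + ρ ^ 2)) +
            4 * ρ ^ 2 * (ρ ^ 2 - (x - μ) ^ 2) := by ring
      have g1 : 0 ≤ (x - μ) ^ 2 + y ^ 2 - ρ ^ 2 := by linarith
      have g2 : 0 ≤ (x ^ 2 + y ^ 2) + (2 * μ * x - (μ ^ 2 - ρ ^ 2)) + 2 * (μ ^ 2 + ρ ^ 2) := by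
        have : 0 ≤ μ * x := mul_nonneg hμ hv
        nlinarith [sq_nonneg x, sq_nonneg y, sq_nonneg μ, sq_nonneg ρ]
      have g3 : 0 ≤ 4 * ρ ^ 2 * (ρ ^ 2 - (x - μ) ^ 2) := mul_nonneg (by positivity) (by linarith)
      have g4 := mul_nonneg g1 g2
      linarith
    · have f0 : (x ^ 2 - y ^ 2 - (μ ^ 2 + ρ ^ 2)) ^ 2 + (2 * x * y) ^ 2 - (2 * μ * ρ) ^ 2 =
          y ^ 2 * (2 * x ^ 2 + y ^ 2 + 2 * (μ ^ 2 + ρ ^ 2)) + (x ^ 2 - (μ + ρ) ^ 2) * (x ^ 2 - (μ - ρ) ^ 2) := by ring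
      have g1 : 0 ≤ y ^ 2 * (2 * x ^ 2 + y ^ 2 + 2 * (μ ^ 2 + ρ ^ 2)) := by positivity
      have g2 : 0 ≤ (x ^ 2 - (μ + ρ) ^ 2) * (x ^ 2 - (μ - ρ) ^ 2) := by
        have hc' : ρ < |x - μ| := by
          rw [← abs_of_nonneg h0]; exact sq_lt_sq.1 hc
        rcases lt_abs.1 hc' with h3 | h3
        · have a1 : μ + ρ ≤ x := by linarith
          have a2 : (μ + ρ) ^ 2 ≤ x ^ 2 := pow_le_pow_left₀ (by linarith) a1 2
          have a3 : (μ - ρ) ^ 2 ≤ x ^ 2 := pow_le_pow_left₀ (by linarith) (by linarith) 2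
          exact mul_nonneg (by linarith) (by linarith)
        · have a2 : x ^ 2 ≤ (μ + ρ) ^ 2 := pow_le_pow_left₀ hv (by linarith) 2
          have a3 : x ^ 2 ≤ (μ - ρ) ^ 2 := pow_le_pow_left₀ hv (by linarith) 2
          exact mul_nonneg_of_nonpos_of_nonpos (by linarith) (by linarith)
      linarith
  rw [← e2] at key
  exact (abs_le_of_sq_le_sq' key (norm_nonneg _)).2

/-- one loop only -/
theorem out_near (hc : Real.cos (2 * Real.pi * x) = c) (hc0 : c ≠ 0) (he : ‖ε ^ 2‖ ≤ 1 / 4)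
    (hn : ∀ Z : ℂ, Alive ε x Z → 2 * c * Z.re < 1) (h : Out ε (2 * x) m' ρ')
    (hρ : 0 ≤ ρ) (h1 : 2 * |c| * ρ ≤ 1 - 2 * c * m)
    (hq : ρ' + |m - m' - c * (m ^ 2 + ρ ^ 2)| + |c| / 4 ≤ (1 - 2 * c * m) * ρ) : Out ε x m ρ := by
  intro Z hZ hA
  refine h _ ?_ hA.next
  have hca : 0 < |c| := abs_pos.2 hc0
  have hre := hn Z hA
  unfold stp
  rw [hc]
  set V : ℂ := 1 - 2 * c * Z with hV
  have hVre : 0 ≤ V.re := by
    rw [hV]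
    simp only [Complex.sub_re, Complex.one_re, Complex.mul_re, Complex.re_ofNat, Complex.ofReal_re,
      Complex.im_ofNat, Complex.ofReal_im, mul_zero, sub_zero]
    simp
    linarith
  have hd : 2 * |c| * ρ ≤ ‖V - ((1 - 2 * c * m : ℝ) : ℂ)‖ := by
    have e : V - ((1 - 2 * c * m : ℝ) : ℂ) = ((-(2 * c) : ℝ) : ℂ) * (Z - m) := by rw [hV]; push_cast; ring
    rw [e, norm_mul, Complex.norm_real, Real.norm_eq_abs, abs_neg, abs_mul, abs_of_pos (by norm_num : (0:ℝ) < 2)]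
    exact mul_le_mul_of_nonneg_left hZ (by positivity)
  have h2 := lobe (by positivity) h1 hVre hd
  have e3 : (4 * c : ℂ) * (Z + (c:ℂ) * (ε ^ 2 - Z ^ 2) - m') =
      -(V ^ 2 - (((1 - 2 * c * m) ^ 2 + (2 * |c| * ρ) ^ 2 : ℝ) : ℂ)) +
        ((4 * c * (m - m' - c * (m ^ 2 + ρ ^ 2)) : ℝ) : ℂ) + 4 * (c:ℂ) ^ 2 * ε ^ 2 := by
    have : ((|c| : ℝ) : ℂ) ^ 2 = (c : ℂ) ^ 2 := by rw [← Complex.ofReal_pow, sq_abs, Complex.ofReal_pow]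
    rw [hV]
    push_cast
    rw [mul_pow, mul_pow, this]
    ring
  have n1 : ‖(4 * c : ℂ) * (Z + (c:ℂ) * (ε ^ 2 - Z ^ 2) - m')‖ = 4 * |c| * ‖Z + (c:ℂ) * (ε ^ 2 - Z ^ 2) - m'‖ := by
    rw [norm_mul, norm_mul, Complex.norm_real, Real.norm_eq_abs]; norm_num
  have n2 : ‖(4 * (c:ℂ) ^ 2 * ε ^ 2)‖ ≤ |c| * |c| := by
    rw [norm_mul, norm_mul, norm_pow, Complex.norm_real, Real.norm_eq_abs]
    have : ‖(4:ℂ)‖ = 4 := by norm_num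
    rw [this]
    have : 4 * |c| ^ 2 * ‖ε ^ 2‖ ≤ 4 * |c| ^ 2 * (1 / 4) := mul_le_mul_of_nonneg_left he (by positivity)
    nlinarith
  have n3 : ‖((4 * c * (m - m' - c * (m ^ 2 + ρ ^ 2)) : ℝ) : ℂ)‖ = 4 * |c| * |m - m' - c * (m ^ 2 + ρ ^ 2)| := by
    rw [Complex.norm_real, Real.norm_eq_abs, abs_mul, abs_mul, abs_of_pos (by norm_num : (0:ℝ) < 4)]
  set V2 := V ^ 2 - (((1 - 2 * c * m) ^ 2 + (2 * |c| * ρ) ^ 2 : ℝ) : ℂ) with hV2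
  have n4 : ‖V2‖ - 4 * |c| * |m - m' - c * (m ^ 2 + ρ ^ 2)| - |c| * |c| ≤
      4 * |c| * ‖Z + (c:ℂ) * (ε ^ 2 - Z ^ 2) - m'‖ := by
    rw [← n1, e3]
    have a1 := norm_sub_le_norm_add (-V2 + ((4 * c * (m - m' - c * (m ^ 2 + ρ ^ 2)) : ℝ) : ℂ))
      (4 * (c:ℂ) ^ 2 * ε ^ 2)
    have a2 := norm_sub_le_norm_add (-V2) ((4 * c * (m - m' - c * (m ^ 2 + ρ ^ 2)) : ℝ) : ℂ)
    rw [norm_neg, n3] at a2
    linarith
  have h5 : 4 * |c| * ρ' ≤ 4 * |c| * ‖Z + (c:ℂ) * (ε ^ 2 - Z ^ 2) - m'‖ := by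
    refine le_trans ?_ n4
    have h6 : 4 * |c| * (ρ' + |m - m' - c * (m ^ 2 + ρ ^ 2)| + |c| / 4) ≤ 4 * |c| * ((1 - 2 * c * m) * ρ) :=
      mul_le_mul_of_nonneg_left hq (by positivity)
    linarith
  exact le_of_mul_le_mul_left h5 (by positivity)

/-- alive points lie on the near side: small cosine -/
theorem near_disc (hc : Real.cos (2 * Real.pi * x) = c) (h1 : |c| ≤ 977 / 10000) :
    ∀ Z : ℂ, Alive ε x Z → 2 * c * Z.re < 1 := by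
  intro Z hA
  by_contra h
  push Not at h
  refine not_alive_disc hc h1 ?_ hA
  have h2 : c * Z.re ≤ |c| * ‖Z‖ := by
    refine (le_abs_self _).trans ?_
    rw [abs_mul]
    exact mul_le_mul_of_nonneg_left (Complex.abs_re_le_norm Z) (abs_nonneg _)
  linarith

/-- alive points lie on the near side: base below `4 / 15` -/
theorem near_half (hc : Real.cos (2 * Real.pi * x) = c) (n : ℤ) (h1 : 1 / 4 ≤ x - n)
    (h2 : x - n ≤ 4 / 15) : ∀ Z : ℂ, Alive ε x Z → 2 * c * Z.re < 1 := by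
  intro Z hA
  by_contra h
  push Not at h
  exact not_alive_half hc n h1 h2 h hA

/-- the region of the parameters -/
structure Reg (ε : ℂ) : Prop where
  adm : Adm ε
  reg : 47 * ‖ε ^ 2‖ ^ 2 < 32 * (ε ^ 2).re

theorem Reg.le (h : Reg ε) : ‖ε ^ 2‖ ≤ 1 / 4 := by
  rw [norm_pow]
  have h1 := h.adm.lt_half
  have h2 := pow_le_pow_left₀ (norm_nonneg _) h1.le 2
  linarith

theorem Reg.quarter (h : Reg ε) : ‖1 / 4 - ε ^ 2‖ ≤ 2813 / 10000 := by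
  have h1 := h.reg
  have h2 := h.le
  set e := ε ^ 2
  have h3 : ‖e‖ ^ 2 = e.re ^ 2 + e.im ^ 2 := by rw [Complex.sq_norm, Complex.normSq_apply]; ring
  have h4 : ‖1 / 4 - e‖ ^ 2 = 1 / 16 - e.re / 2 + ‖e‖ ^ 2 := by
    rw [h3, Complex.sq_norm, Complex.normSq_apply]
    have e1 : (1 / 4 - e).re = 1 / 4 - e.re := by simp
    have e2 : (1 / 4 - e).im = -e.im := by simp
    rw [e1, e2]; ring
  have h5 : ‖e‖ ^ 2 ≤ 1 / 16 := by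
    have := pow_le_pow_left₀ (norm_nonneg _) h2 2
    linarith
  have h8 : ‖1 / 4 - e‖ ^ 2 ≤ (2813 / 10000) ^ 2 := by
    rw [h4]
    linarith
  exact le_of_sq_le_sq h8 (by norm_num)
where
  le_of_sq_le_sq {a b : ℝ} (h : a ^ 2 ≤ b ^ 2) (hb : 0 ≤ b) : a ≤ b := by
    exact (abs_le_of_sq_le_sq' h hb).2

theorem Reg.ne (h : Reg ε) : ε ≠ 0 := by
  intro h0
  have := h.adm.re
  rw [h0] at this
  simp at this

theorem Reg.third (h : Reg ε) : ‖1 / 4 - ε ^ 2 / 4‖ < 1 / 4 := by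
  have h1 := h.reg
  have h0 : 0 < ‖ε ^ 2‖ := by
    rw [norm_pos_iff]; exact pow_ne_zero 2 h.ne
  set e := ε ^ 2
  have h3 : ‖e‖ ^ 2 = e.re ^ 2 + e.im ^ 2 := by rw [Complex.sq_norm, Complex.normSq_apply]; ring
  have h4 : ‖1 / 4 - e / 4‖ ^ 2 = (1 - 2 * e.re + ‖e‖ ^ 2) / 16 := by
    rw [h3, Complex.sq_norm, Complex.normSq_apply]
    have e1 : (1 / 4 - e / 4).re = 1 / 4 - e.re / 4 := by simp
    have e2 : (1 / 4 - e / 4).im = -(e.im / 4) := by simp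
    rw [e1, e2]; ring
  have h7 : 0 < ‖e‖ ^ 2 := by positivity
  have h8 : ‖1 / 4 - e / 4‖ ^ 2 < (1 / 4) ^ 2 := by
    rw [h4]
    linarith
  exact lt_of_pow_lt_pow_left₀ 2 (by norm_num) h8

/-- base `0` -/
theorem out_int (h : Reg ε) {n : ℤ} (hx : x = n) (hρ : 123 / 100 ≤ ρ) : Out ε x (1 / 2) ρ := by
  intro Z hZ
  refine not_alive_esc0 hx (r := 123 / 100) ?_ (by norm_num) ?_
  · have := h.quarter
    norm_num at this ⊢
    linarith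
  · push_cast at hZ
    linarith

/-- base `1 / 3` -/
theorem out_third (h : Reg ε) {q : ℤ} (hx : 3 * x = q) (hq : ¬ (3 ∣ q)) (hρ : 24144 / 10000 ≤ ρ) :
    Out ε x (-1) ρ := by
  intro Z hZ
  refine not_alive_esc3 hx hq (r := 12072 / 10000) ?_ (by norm_num) ?_
  · have := h.third
    norm_num at this ⊢
    linarith
  · push_cast at hZ
    rw [sub_neg_eq_add] at hZ
    linarith

/-- the trap over the base `1 / 3` -/
theorem trap_third (h : Reg ε) {q : ℤ} (hx : 3 * x = q) (hq : ¬ (3 ∣ q)) {Z : ℂ} (hZ : ‖Z + 1‖ ≤ 1) :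
    ¬ Alive ε x Z := by
  refine not_alive_disc3 h.adm hx hq (r := 1 / 2) ?_ (by linarith)
  have := h.third
  norm_num at this ⊢
  linarith

/-! ### the phases `2 ^ p / 15` -/

open Pool.Agent.W_4481e3_q12 (Good zz zz_add) in
open Pool.Agent.W_4481e3_q12.Ev (cph) in
theorem good_of_alive {p : ℕ} {w : ℂ} (h : Alive ε (2 ^ p / 15) w) : Good (ε ^ 2) p w := by
  have horb : ∀ j, orb (ε ^ 2) (2 ^ p / 15) w j = zz (ε ^ 2) p j w := by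
    intro j
    induction j with
    | zero => rfl
    | succ j ih =>
      have h1 : zz (ε ^ 2) p (j + 1) w = zz (ε ^ 2) p j w +
          (cph (p + j) : ℂ) * (ε ^ 2 - zz (ε ^ 2) p j w ^ 2) := by
        rw [zz_add]; rfl
      rw [h1, ← ih]
      show orb (ε ^ 2) (2 ^ p / 15) w j +
        (Real.cos (2 * Real.pi * (2 ^ j * (2 ^ p / 15))) : ℂ) * _ = _
      congr 2
      unfold cph
      congr 2
      rw [pow_add]
      ring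
  refine ⟨fun j => ?_, fun j hj => ?_⟩
  · rw [← horb]; exact h.bd j
  · rw [← horb]
    have hx : (2:ℝ) ^ j * (2 ^ p / 15) = 2 ^ (p + j) / 15 := by rw [pow_add]; ring
    obtain ⟨n, hn⟩ : ∃ n : ℤ, (2:ℤ) ^ (p + j) = 15 * n + 4 := by
      have h1 : (2:ℤ) ^ (p + j) ≡ 4 [ZMOD 15] := by
        obtain ⟨m, hm⟩ : ∃ m, p + j = 4 * m + 2 := ⟨(p + j) / 4, by omega⟩
        rw [hm, pow_add, pow_mul]
        have h2 : ((2:ℤ) ^ 4) ^ m ≡ 1 ^ m [ZMOD 15] := Int.ModEq.pow m (by decide)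
        rw [one_pow] at h2
        have h3 := h2.mul_right (2 ^ 2)
        norm_num at h3 ⊢
        exact h3
      obtain ⟨k, hk⟩ := h1.symm.dvd
      exact ⟨k, by linarith⟩
    have hn' : (2:ℝ) ^ (p + j) = 15 * n + 4 := by exact_mod_cast hn
    have h4 := h.half j n (by rw [hx, hn']; linarith) (by rw [hx, hn']; linarith)
    rw [hx] at h4
    exact h4

/-- the cycle `1 / 15, 2 / 15, 4 / 15, 8 / 15` -/
theorem out_phase {p : ℕ} {n : ℤ} (hx : x = 2 ^ p / 15 + n) {T : ℝ}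
    (hT : ∀ w : ℂ, Pool.Agent.W_4481e3_q12.Good (ε ^ 2) p w → ‖w‖ ≤ T) (hρ : T < ρ) : Out ε x 0 ρ := by
  intro Z hZ hA
  rw [Complex.ofReal_zero, sub_zero] at hZ
  have h1 := hA.add_int (-n)
  rw [hx] at h1
  push_cast at h1
  rw [add_neg_cancel_right] at h1
  have := hT Z (good_of_alive h1)
  linarith

end Pool.Agent.W_4481e3_h10
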